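import Pool.Agent.Q325.SO.Stmts

set_option autoImplicit false

namespace Pool.Agent.Q325.SO

theorem Bd_mono {A : Type} [AddCommGroup A] {D D' : ℕ} (hD : D ≤ D') {x : ℤ → A} (hx : Bd D x) :
    Bd D' x := by
  intro i j hi hj
  have := hx i j hi hj
  omega

theorem Sol_mono {A : Type} [AddCommGroup A] {r : ℕ} {h : ℕ → A →+ A} {D D' : ℕ} (hD : D ≤ D')
    (hs : Sol r h D) : Sol r h D' := by
  obtain ⟨x, hx, hb⟩ := hs
  exact ⟨x, hx, fun t => Bd_mono hD (hb t)⟩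

theorem Sol_ker (hAdd : TaskAdd) {A : Type} [AddCommGroup A] {r : ℕ} {h : ℕ → A →+ A} {D : ℕ}
    {y : ℤ → A} (hy : y ≠ 0) (hb : Bd D y) (hF : F r h y = 0) : Sol r h D := by
  refine ⟨y, hy, fun t => ?_⟩
  cases t with
  | zero => simpa using hb
  | succ t =>
    rw [Function.iterate_succ_apply, hF, (hAdd A r h t).2.2.1]
    intro i j hi _
    exact absurd rfl hi

/-- the bound on the diameter -/
def ConclEig : Prop := ∀ (A : Type) [AddCommGroup A] (m : ℕ) (_ : A ≃ Fin m) (r : ℕ)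
  (h : ℕ → A →+ A) (k : ℕ) (s : ℤ)
  (p : ℕ) (y : ℤ → A), p.Prime → p ≤ m → 1 ≤ k → y ≠ 0 → Fs y → p • y = 0 →
  (F r h)^[k] y = sh s y →
  ∃ (k' : ℕ) (s' : ℤ) (y' : ℤ → A), 1 ≤ k' ∧ k' ≤ KK m ∧ y' ≠ 0 ∧ Fs y' ∧
    (F r h)^[k'] y' = sh s' y'

theorem KK_pos {A : Type} [AddCommGroup A] {m : ℕ} (e : A ≃ Fin m) : 1 ≤ KK m := by
  have hm : 1 ≤ m := by
    have := (e 0).2
    omega
  unfold KK
  exact Nat.mul_pos hm (Nat.pow_pos hm)

theorem sol_of_ker (hAdd : TaskAdd) (hKer : TaskKer) (A : Type) [AddCommGroup A] (m : ℕ)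
    (e : A ≃ Fin m) (r : ℕ) (h : ℕ → A →+ A)
    (hy : ∃ y : ℤ → A, y ≠ 0 ∧ Fs y ∧ F r h y = 0) : Sol r h (D0 m r) := by
  have hm : 1 ≤ m := by
    have := (e 0).2
    omega
  have hK : 1 ≤ KK m := KK_pos e
  obtain ⟨y', hy', hb, hF'⟩ := hKer A m e r h hy
  refine Sol_mono ?_ (Sol_ker hAdd hy' hb hF')
  unfold D0
  have h1 : r ≤ r * KK m := Nat.le_mul_of_pos_right r hK
  have h2 : m ^ (2 * r + 1) ≤ m ^ (2 * (r * KK m) + 1) := Nat.pow_le_pow_right hm (by omega)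
  omega

theorem sol_of_per (hAdd : TaskAdd) (hSpeed : TaskSpeed) (hPow : TaskPow) (hKer : TaskKer)
    (hPeriod : TaskPeriod) (A : Type) [AddCommGroup A] (m : ℕ)
    (e : A ≃ Fin m) (r : ℕ) (h : ℕ → A →+ A) (k' : ℕ) (s' : ℤ) (y2 : ℤ → A) (hk' : 1 ≤ k')
    (hkK : k' ≤ KK m) (hy2 : y2 ≠ 0) (hfs2 : Fs y2) (hF2 : (F r h)^[k'] y2 = sh s' y2) :
    Sol r h (D0 m r) := by
  have hm : 1 ≤ m := by
    have := (e 0).2
    omega
  have hsp := hSpeed hAdd A r h k' s' y2 hy2 hfs2 hF2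
  obtain ⟨g, hg⟩ := hPow A r h k' s' hsp
  obtain ⟨y3, hy3, hb3, hF3⟩ := hKer A m e (r * k') g ⟨y2, hy2, hfs2, by
    rw [hg, hF2, sub_self]⟩
  have hF4 : (F r h)^[k'] y3 = sh s' y3 := by
    have := hg y3
    rw [hF3] at this
    exact (sub_eq_zero.1 this.symm)
  refine Sol_mono ?_ (hPeriod hAdd A r h k' s' y3 _ hk' hy3 hb3 hF4)
  unfold D0
  have h1 : r * k' ≤ r * KK m := Nat.mul_le_mul_left r hkK
  have h2 : m ^ (2 * (r * k') + 1) ≤ m ^ (2 * (r * KK m) + 1) :=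
    Nat.pow_le_pow_right hm (by omega)
  have h3 : 2 * r * k' = 2 * (r * k') := by ring
  rw [h3]
  omega

theorem crit_of_sol (hAdd : TaskAdd) (hWord : TaskWord) (hOrbit : TaskOrbit) (hTor : TaskTor)
    (hEig : ConclEig) (A : Type) [AddCommGroup A] (m : ℕ) (e : A ≃ Fin m) (r : ℕ)
    (h : ℕ → A →+ A) (D : ℕ) (hs : Sol r h D) :
    (∃ y : ℤ → A, y ≠ 0 ∧ Fs y ∧ F r h y = 0) ∨
    ∃ (k : ℕ) (s : ℤ) (y : ℤ → A), 1 ≤ k ∧ k ≤ KK m ∧ y ≠ 0 ∧ Fs y ∧ (F r h)^[k] y = sh s y := by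
  rcases hOrbit hAdd hWord A m e r h D hs with h1 | ⟨k, s, y, hk, hy, hfs, hF⟩
  · exact Or.inl h1
  · obtain ⟨p, y1, hp, hpm, hy1, hfs1, hpy, hF1⟩ := hTor hAdd A m e r h k s y hy hfs hF
    exact Or.inr (hEig A m e r h k s p y1 hp hpm hk hy1 hfs1 hpy hF1)

theorem bound (hAdd : TaskAdd) (hWord : TaskWord) (hOrbit : TaskOrbit) (hTor : TaskTor)
    (hEig : ConclEig) (hSpeed : TaskSpeed) (hPow : TaskPow) (hKer : TaskKer)
    (hPeriod : TaskPeriod) (A : Type) [AddCommGroup A] (m : ℕ) (e : A ≃ Fin m) (r : ℕ)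
    (h : ℕ → A →+ A) (D : ℕ) (hs : Sol r h D) : Sol r h (D0 m r) := by
  rcases crit_of_sol hAdd hWord hOrbit hTor hEig A m e r h D hs with h1 |
    ⟨k, s, y, hk, hkK, hy, hfs, hF⟩
  · exact sol_of_ker hAdd hKer A m e r h h1
  · exact sol_of_per hAdd hSpeed hPow hKer hPeriod A m e r h k s y hk hkK hy hfs hF

theorem criterion (hAdd : TaskAdd) (hWord : TaskWord) (hOrbit : TaskOrbit) (hTor : TaskTor)
    (hEig : ConclEig) (hSpeed : TaskSpeed) (hPow : TaskPow) (hKer : TaskKer)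
    (hPeriod : TaskPeriod) (hLin : TaskLin) (A : Type) [AddCommGroup A] (m : ℕ)
    (e : A ≃ Fin m) (r : ℕ) (h : ℕ → A →+ A) : HasSoliton r h ↔
    (∃ y : ℤ → A, y ≠ 0 ∧ Fs y ∧ F r h y = 0) ∨
    ∃ (k : ℕ) (s : ℤ) (y : ℤ → A), 1 ≤ k ∧ k ≤ KK m ∧ y ≠ 0 ∧ Fs y ∧
      (F r h)^[k] y = sh s y := by
  rw [hLin hAdd A r h]
  constructor
  · rintro ⟨D, hs⟩
    exact crit_of_sol hAdd hWord hOrbit hTor hEig A m e r h D hs
  · rintro (h1 | ⟨k, s, y, hk, hkK, hy, hfs, hF⟩)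
    · exact ⟨_, sol_of_ker hAdd hKer A m e r h h1⟩
    · exact ⟨_, sol_of_per hAdd hSpeed hPow hKer hPeriod A m e r h k s y hk hkK hy hfs hF⟩

theorem table_length {A : Type} [AddCommGroup A] {m : ℕ} (e : A ≃ Fin m) :
    (table e).length = m := by
  simp [table]

theorem rules_length {A : Type} [AddCommGroup A] {m : ℕ} (e : A ≃ Fin m) (r : ℕ)
    (h : ℕ → A →+ A) : (rules e r h).length = 2 * r + 1 := by
  simp [rules]

theorem iter_cf (hStep : TaskStep) {A : Type} [AddCommGroup A] {m : ℕ} (e : A ≃ Fin m) (r : ℕ)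
    (h : ℕ → A →+ A) (w : List ℕ) (hw : ∀ a ∈ w, a < m) (off : ℤ) (t : ℕ) :
    (∃ off' : ℤ, (F r h)^[t] (cf e off w) =
      cf e off' ((stepL (e 0 : ℕ) (table e) (rules e r h))^[t] w)) ∧
    ∀ a ∈ (stepL (e 0 : ℕ) (table e) (rules e r h))^[t] w, a < m := by
  induction t with
  | zero => exact ⟨⟨off, rfl⟩, hw⟩
  | succ t ih =>
    obtain ⟨⟨off', h1⟩, h2⟩ := ih
    have h3 := hStep A m e r h off' _ h2
    rw [Function.iterate_succ_apply', Function.iterate_succ_apply', h1]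
    exact ⟨⟨_, h3.1⟩, h3.2⟩

theorem search_iff (hAdd : TaskAdd) (hWord : TaskWord) (hOrbit : TaskOrbit) (hTor : TaskTor)
    (hEig : ConclEig) (hSpeed : TaskSpeed) (hPow : TaskPow) (hKer : TaskKer)
    (hPeriod : TaskPeriod) (hWords : TaskWords) (hZero : TaskZero) (hStep : TaskStep)
    (hBd : TaskBd) (hWordNe : TaskWordNe) (hLin : TaskLin) (hTime : TaskTime)
    (A : Type) [AddCommGroup A] (m : ℕ) (e : A ≃ Fin m) (r : ℕ)
    (h : ℕ → A →+ A) : Search (table e, rules e r h) ↔ HasSoliton r h := by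
  have hz := hZero A m e
  have hl : (table e).length = m := table_length e
  have hl' : (rules e r h).length = 2 * r + 1 := rules_length e r h
  have hr : ((rules e r h).length - 1) / 2 = r := by
    rw [hl']
    omega
  rw [hLin hAdd A r h]
  unfold Search
  simp only [hl, hr, hz]
  constructor
  · rintro ⟨w, hw, hne, hb⟩
    rw [hWords] at hw
    refine ⟨D0 m r, cf e 0 w, hWordNe A m e 0 w hw.2 hne, ?_⟩
    refine hTime hAdd hWord A m e r h _ _ (hWordNe A m e 0 w hw.2 hne) fun t ht => ?_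
    obtain ⟨⟨off', h1⟩, h2⟩ := iter_cf hStep e r h w hw.2 0 t
    rw [h1, ← hBd A m e off' _ _ h2]
    exact hb t ht
  · rintro ⟨D, hs⟩
    obtain ⟨x, hx, hb⟩ := bound hAdd hWord hOrbit hTor hEig hSpeed hPow hKer hPeriod A m e r h D hs
    obtain ⟨s, w, hwl, hwm, rfl, hne⟩ := hWord A m e _ x hx (hb 0)
    refine ⟨w, (hWords _ _ _).2 ⟨hwl, hwm⟩, hne, fun t _ => ?_⟩
    obtain ⟨⟨off', h1⟩, h2⟩ := iter_cf hStep e r h w hwm s t
    rw [hBd A m e off' _ _ h2, ← h1]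
    exact hb t

end Pool.Agent.Q325.SO
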