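import Pool.Agent.Q325.SO.Stmts

set_option autoImplicit false

namespace Pool.Agent.Q325.SO

/-- the entry of the table -/
def op (T : List (List ℕ)) (a b : ℕ) : ℕ := (T.getD a []).getD b 0

/-- the data are those of an abelian cellular automaton -/
def Valid (p : List (List ℕ) × List (List ℕ)) : Prop :=
  (∀ a < p.1.length, (p.1.getD a []).length = p.1.length) ∧
  (∀ a < p.1.length, ∀ b < p.1.length, op p.1 a b < p.1.length) ∧
  (∀ a < p.1.length, ∀ b < p.1.length, op p.1 a b = op p.1 b a) ∧
  (∀ a < p.1.length, ∀ b < p.1.length, ∀ c < p.1.length,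
    op p.1 (op p.1 a b) c = op p.1 a (op p.1 b c)) ∧
  (∃ z < p.1.length, (∀ a < p.1.length, op p.1 z a = a) ∧
    ∀ a < p.1.length, ∃ b < p.1.length, op p.1 b a = z) ∧
  p.2.length % 2 = 1 ∧
  (∀ j < p.2.length, (p.2.getD j []).length = p.1.length) ∧
  (∀ j < p.2.length, ∀ a < p.1.length, op p.2 j a < p.1.length) ∧
  (∀ j < p.2.length, ∀ a < p.1.length, ∀ b < p.1.length,
    op p.2 j (op p.1 a b) = op p.1 (op p.2 j a) (op p.2 j b))

private theorem pall {α : Type} [Primcodable α] {n : α → ℕ} (hn : Primrec n) {R : ℕ → α → Prop}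
    (hR : PrimrecRel R) : PrimrecPred fun p => ∀ a < n p, R a p := by
  have h : PrimrecRel fun (L : List ℕ) (y : α) => ∀ x ∈ L, R x y := PrimrecRel.forall_mem_list hR
  exact (PrimrecRel.comp h (Primrec.list_range.comp hn) Primrec.id).of_eq (by simp)

private theorem pex {α : Type} [Primcodable α] {n : α → ℕ} (hn : Primrec n) {R : ℕ → α → Prop}
    (hR : PrimrecRel R) : PrimrecPred fun p => ∃ a < n p, R a p := by
  have h : PrimrecRel fun (L : List ℕ) (y : α) => ∃ x ∈ L, R x y := PrimrecRel.exists_mem_list hR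
  exact (PrimrecRel.comp h (Primrec.list_range.comp hn) Primrec.id).of_eq (by simp)

private theorem pop : Primrec (fun q : List (List ℕ) × ℕ × ℕ => op q.1 q.2.1 q.2.2) := by
  unfold op
  exact (Primrec.list_getD 0).comp ((Primrec.list_getD []).comp Primrec.fst
    (Primrec.fst.comp Primrec.snd)) (Primrec.snd.comp Primrec.snd)

private theorem pop' {α : Type} [Primcodable α] {f : α → List (List ℕ)} {g h : α → ℕ}
    (hf : Primrec f) (hg : Primrec g) (hh : Primrec h) :
    Primrec (fun q => op (f q) (g q) (h q)) :=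
  pop.comp (hf.pair (hg.pair hh))

theorem valid_prim : PrimrecPred Valid := by
  have hm : Primrec (fun p : List (List ℕ) × List (List ℕ) => p.1.length) :=
    Primrec.list_length.comp Primrec.fst
  have hl : Primrec (fun p : List (List ℕ) × List (List ℕ) => p.2.length) :=
    Primrec.list_length.comp Primrec.snd
  unfold Valid
  refine PrimrecPred.and ?_ (PrimrecPred.and ?_ (PrimrecPred.and ?_ (PrimrecPred.and ?_
    (PrimrecPred.and ?_ (PrimrecPred.and ?_ (PrimrecPred.and ?_ (PrimrecPred.and ?_ ?_)))))))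
  · refine pall hm ?_
    exact Primrec.eq.comp (Primrec.list_length.comp ((Primrec.list_getD []).comp
      (Primrec.fst.comp Primrec.snd) Primrec.fst)) (hm.comp Primrec.snd)
  · refine pall hm ?_
    refine pall (α := ℕ × (List (List ℕ) × List (List ℕ))) (hm.comp Primrec.snd) ?_
    exact Primrec.nat_lt.comp (pop' (Primrec.fst.comp (Primrec.snd.comp Primrec.snd))
      (Primrec.fst.comp Primrec.snd) Primrec.fst) (hm.comp (Primrec.snd.comp Primrec.snd))
  · refine pall hm ?_
    refine pall (α := ℕ × (List (List ℕ) × List (List ℕ))) (hm.comp Primrec.snd) ?_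
    exact Primrec.eq.comp (pop' (Primrec.fst.comp (Primrec.snd.comp Primrec.snd))
      (Primrec.fst.comp Primrec.snd) Primrec.fst)
      (pop' (Primrec.fst.comp (Primrec.snd.comp Primrec.snd))
      Primrec.fst (Primrec.fst.comp Primrec.snd))
  · refine pall hm ?_
    refine pall (α := ℕ × (List (List ℕ) × List (List ℕ))) (hm.comp Primrec.snd) ?_
    refine pall (α := ℕ × ℕ × (List (List ℕ) × List (List ℕ)))
      (hm.comp (Primrec.snd.comp Primrec.snd)) ?_
    have hT : Primrec (fun q : ℕ × ℕ × ℕ × (List (List ℕ) × List (List ℕ)) => q.2.2.2.1) :=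
      Primrec.fst.comp (Primrec.snd.comp (Primrec.snd.comp Primrec.snd))
    have ha : Primrec (fun q : ℕ × ℕ × ℕ × (List (List ℕ) × List (List ℕ)) => q.2.2.1) :=
      Primrec.fst.comp (Primrec.snd.comp Primrec.snd)
    have hb : Primrec (fun q : ℕ × ℕ × ℕ × (List (List ℕ) × List (List ℕ)) => q.2.1) :=
      Primrec.fst.comp Primrec.snd
    exact Primrec.eq.comp (pop' hT (pop' hT ha hb) Primrec.fst)
      (pop' hT ha (pop' hT hb Primrec.fst))
  · refine pex hm ?_
    refine PrimrecPred.and ?_ ?_
    · refine pall (α := ℕ × (List (List ℕ) × List (List ℕ))) (hm.comp Primrec.snd) ?_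
      exact Primrec.eq.comp (pop' (Primrec.fst.comp (Primrec.snd.comp Primrec.snd))
        (Primrec.fst.comp Primrec.snd) Primrec.fst) Primrec.fst
    · refine pall (α := ℕ × (List (List ℕ) × List (List ℕ))) (hm.comp Primrec.snd) ?_
      refine pex (α := ℕ × ℕ × (List (List ℕ) × List (List ℕ)))
        (hm.comp (Primrec.snd.comp Primrec.snd)) ?_
      exact Primrec.eq.comp (pop' (Primrec.fst.comp (Primrec.snd.comp
        (Primrec.snd.comp Primrec.snd))) Primrec.fst (Primrec.fst.comp Primrec.snd))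
        (Primrec.fst.comp (Primrec.snd.comp Primrec.snd))
  · exact Primrec.eq.comp (Primrec.nat_mod.comp hl (Primrec.const 2)) (Primrec.const 1)
  · refine pall hl ?_
    exact Primrec.eq.comp (Primrec.list_length.comp ((Primrec.list_getD []).comp
      (Primrec.snd.comp Primrec.snd) Primrec.fst)) (hm.comp Primrec.snd)
  · refine pall hl ?_
    refine pall (α := ℕ × (List (List ℕ) × List (List ℕ))) (hm.comp Primrec.snd) ?_
    exact Primrec.nat_lt.comp (pop' (Primrec.snd.comp (Primrec.snd.comp Primrec.snd))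
      (Primrec.fst.comp Primrec.snd) Primrec.fst) (hm.comp (Primrec.snd.comp Primrec.snd))
  · refine pall hl ?_
    refine pall (α := ℕ × (List (List ℕ) × List (List ℕ))) (hm.comp Primrec.snd) ?_
    refine pall (α := ℕ × ℕ × (List (List ℕ) × List (List ℕ)))
      (hm.comp (Primrec.snd.comp Primrec.snd)) ?_
    have hT : Primrec (fun q : ℕ × ℕ × ℕ × (List (List ℕ) × List (List ℕ)) => q.2.2.2.1) :=
      Primrec.fst.comp (Primrec.snd.comp (Primrec.snd.comp Primrec.snd))
    have hH : Primrec (fun q : ℕ × ℕ × ℕ × (List (List ℕ) × List (List ℕ)) => q.2.2.2.2) :=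
      Primrec.snd.comp (Primrec.snd.comp (Primrec.snd.comp Primrec.snd))
    have hj : Primrec (fun q : ℕ × ℕ × ℕ × (List (List ℕ) × List (List ℕ)) => q.2.2.1) :=
      Primrec.fst.comp (Primrec.snd.comp Primrec.snd)
    have ha : Primrec (fun q : ℕ × ℕ × ℕ × (List (List ℕ) × List (List ℕ)) => q.2.1) :=
      Primrec.fst.comp Primrec.snd
    exact Primrec.eq.comp (pop' hH hj (pop' hT ha Primrec.fst))
      (pop' hT (pop' hH hj ha) (pop' hH hj Primrec.fst))

private theorem op_table {A : Type} [AddCommGroup A] {m : ℕ} (e : A ≃ Fin m) (a b : ℕ)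
    (ha : a < m) (hb : b < m) :
    op (table e) a b = (e (e.symm ⟨a, ha⟩ + e.symm ⟨b, hb⟩) : ℕ) := by
  unfold op table
  have h1 : (List.ofFn fun a : Fin m => List.ofFn fun b : Fin m =>
      (e (e.symm a + e.symm b) : ℕ)).getD a [] =
      List.ofFn fun b : Fin m => (e (e.symm ⟨a, ha⟩ + e.symm b) : ℕ) := by
    rw [List.getD_eq_getElem _ _ (by simpa using ha), List.getElem_ofFn]
  rw [h1, List.getD_eq_getElem _ _ (by simpa using hb), List.getElem_ofFn]

private theorem op_rules {A : Type} [AddCommGroup A] {m : ℕ} (e : A ≃ Fin m) (r : ℕ)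
    (h : ℕ → A →+ A) (j a : ℕ) (hj : j < 2 * r + 1) (ha : a < m) :
    op (rules e r h) j a = (e (h j (e.symm ⟨a, ha⟩)) : ℕ) := by
  unfold op rules
  have h1 : ((List.range (2 * r + 1)).map fun j => List.ofFn fun a : Fin m =>
      (e (h j (e.symm a)) : ℕ)).getD j [] =
      List.ofFn fun a : Fin m => (e (h j (e.symm a)) : ℕ) := by
    rw [List.getD_eq_getElem _ _ (by rw [List.length_map, List.length_range]; exact hj),
      List.getElem_map, List.getElem_range]
  rw [h1, List.getD_eq_getElem _ _ (by simpa using ha), List.getElem_ofFn]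

theorem valid_of {A : Type} [AddCommGroup A] {m : ℕ} (e : A ≃ Fin m) (r : ℕ)
    (h : ℕ → A →+ A) : Valid (table e, rules e r h) := by
  have h1 : (table e).length = m := by simp [table]
  have h2 : (rules e r h).length = 2 * r + 1 := by simp [rules]
  unfold Valid
  simp only [h1, h2]
  have hlt : ∀ a < m, ∀ b < m, op (table e) a b < m := by
    intro a ha b hb
    rw [op_table e a b ha hb]
    exact Fin.is_lt _
  have hlt2 : ∀ j < 2 * r + 1, ∀ a < m, op (rules e r h) j a < m := by
    intro j hj a ha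
    rw [op_rules e r h j a hj ha]
    exact Fin.is_lt _
  refine ⟨?_, hlt, ?_, ?_, ?_, by omega, ?_, hlt2, ?_⟩
  · intro a ha
    rw [List.getD_eq_getElem _ _ (by rw [h1]; exact ha)]
    simp [table]
  · intro a ha b hb
    rw [op_table e a b ha hb, op_table e b a hb ha, add_comm]
  · intro a ha b hb c hc
    rw [op_table e _ c (hlt a ha b hb) hc, op_table e a _ ha (hlt b hb c hc)]
    have h3 : (⟨op (table e) a b, hlt a ha b hb⟩ : Fin m) = e (e.symm ⟨a, ha⟩ + e.symm ⟨b, hb⟩) :=
      Fin.ext (op_table e a b ha hb)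
    have h4 : (⟨op (table e) b c, hlt b hb c hc⟩ : Fin m) = e (e.symm ⟨b, hb⟩ + e.symm ⟨c, hc⟩) :=
      Fin.ext (op_table e b c hb hc)
    rw [h3, h4]
    simp [add_assoc]
  · refine ⟨(e 0 : ℕ), Fin.is_lt _, ?_, ?_⟩
    · intro a ha
      rw [op_table e _ a (Fin.is_lt _) ha]
      simp
    · intro a ha
      refine ⟨(e (- e.symm ⟨a, ha⟩) : ℕ), Fin.is_lt _, ?_⟩
      rw [op_table e _ a (Fin.is_lt _) ha]
      simp
  · intro j hj
    rw [List.getD_eq_getElem _ _ (by rw [h2]; exact hj)]
    simp [rules]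
  · intro j hj a ha b hb
    rw [op_rules e r h j _ hj (hlt a ha b hb), op_table e _ _ (hlt2 j hj a ha) (hlt2 j hj b hb)]
    have h3 : (⟨op (table e) a b, hlt a ha b hb⟩ : Fin m) = e (e.symm ⟨a, ha⟩ + e.symm ⟨b, hb⟩) :=
      Fin.ext (op_table e a b ha hb)
    have h4 : ∀ a (ha : a < m), (⟨op (rules e r h) j a, hlt2 j hj a ha⟩ : Fin m) =
        e (h j (e.symm ⟨a, ha⟩)) := fun a ha => Fin.ext (op_rules e r h j a hj ha)
    rw [h3, h4 a ha, h4 b hb]
    simp

/-- the alphabet with `n` letters -/
def Al (n : ℕ) : Type := Fin n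

theorem of_valid (p : List (List ℕ) × List (List ℕ)) (hp : Valid p) :
    ∃ (A : Type) (_ : AddCommGroup A) (m : ℕ) (e : A ≃ Fin m) (r : ℕ) (h : ℕ → A →+ A),
      p = (table e, rules e r h) := by
  obtain ⟨T, H⟩ := p
  obtain ⟨h1, h2, h3, h4, ⟨z, hz, h5, h6⟩, h7, h8, h9, h10⟩ := hp
  simp only at h1 h2 h3 h4 hz h5 h6 h7 h8 h9 h10
  choose! ng hng hng' using h6
  let iA : Add (Al T.length) :=
    ⟨fun a b => (⟨op T (Fin.val (n := T.length) a) (Fin.val (n := T.length) b),
      h2 _ (Fin.is_lt (n := T.length) a) _ (Fin.is_lt (n := T.length) b)⟩ : Fin T.length)⟩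
  let iN : Neg (Al T.length) :=
    ⟨fun a => (⟨ng (Fin.val (n := T.length) a), hng _ (Fin.is_lt (n := T.length) a)⟩ :
      Fin T.length)⟩
  let iZ : Zero (Al T.length) := ⟨(⟨z, hz⟩ : Fin T.length)⟩
  let G0 : AddGroup (Al T.length) := AddGroup.ofLeftAxioms
    (fun a b c => Fin.ext (n := T.length) (h4 _ (Fin.is_lt (n := T.length) a) _
      (Fin.is_lt (n := T.length) b) _ (Fin.is_lt (n := T.length) c)))
    (fun a => Fin.ext (n := T.length) (h5 _ (Fin.is_lt (n := T.length) a)))
    (fun a => Fin.ext (n := T.length) (hng' _ (Fin.is_lt (n := T.length) a)))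
  let G : AddCommGroup (Al T.length) :=
    { G0 with
      add_comm := fun a b => Fin.ext (n := T.length) (h3 _ (Fin.is_lt (n := T.length) a) _
        (Fin.is_lt (n := T.length) b)) }
  have key' : ∀ j, ∃ g : Al T.length →+ Al T.length,
      j < H.length → ∀ a : Fin T.length, Fin.val (n := T.length) (g a) = op H j a := by
    intro j
    by_cases hj : j < H.length
    · refine ⟨AddMonoidHom.mk' (fun a => (⟨op H j (Fin.val (n := T.length) a),
        h9 j hj _ (Fin.is_lt (n := T.length) a)⟩ : Fin T.length)) ?_, fun _ a => rfl⟩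
      intro a b
      exact Fin.ext (n := T.length) (h10 j hj _ (Fin.is_lt (n := T.length) a) _
        (Fin.is_lt (n := T.length) b))
    · exact ⟨0, fun h => absurd h hj⟩
  choose h hh using key'
  refine ⟨Al T.length, G, T.length, Equiv.refl (Fin T.length), (H.length - 1) / 2, h, ?_⟩
  have hlen : 2 * ((H.length - 1) / 2) + 1 = H.length := by omega
  refine Prod.ext ?_ ?_
  · refine List.ext_getElem (by simp [table]) fun a ha ha' => ?_
    have hra := h1 a ha
    rw [List.getD_eq_getElem _ _ ha] at hra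
    simp only [table, List.getElem_ofFn]
    refine List.ext_getElem (by simp [hra]) fun b hb hb' => ?_
    simp only [List.getElem_ofFn]
    have hb2 : b < T.length := by rw [← hra]; exact hb
    change T[a][b] = op T a b
    unfold op
    rw [List.getD_eq_getElem _ _ ha, List.getD_eq_getElem _ _ hb]
  · refine List.ext_getElem (by simp [rules, hlen]) fun j hj hj' => ?_
    have hrj := h8 j hj
    rw [List.getD_eq_getElem _ _ hj] at hrj
    simp only [rules, List.getElem_map, List.getElem_range]
    refine List.ext_getElem (by simp [hrj]) fun a ha ha' => ?_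
    simp only [List.getElem_ofFn]
    have ha2 : a < T.length := by rw [← hrj]; exact ha
    have hfin := hh j hj ⟨a, ha2⟩
    refine Eq.trans ?_ hfin.symm
    unfold op
    rw [List.getD_eq_getElem _ _ hj, List.getD_eq_getElem _ _ ha]

end Pool.Agent.Q325.SO
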