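import Pool.Agent.Q325.SO.Asm
import Pool.Agent.Q325.SO.Valid

set_option autoImplicit false

namespace Pool.Agent.Q325.SO

private theorem to_cp {α : Type} [Primcodable α] {p : α → Prop} (hp : PrimrecPred p) :
    ComputablePred p := by
  obtain ⟨d, h⟩ := hp
  exact ⟨d, h.to_comp⟩

theorem final (hP : PrimrecPred Search)
    (hS : ∀ (A : Type) [AddCommGroup A] (m : ℕ) (e : A ≃ Fin m) (r : ℕ) (h : ℕ → A →+ A),
      Search (table e, rules e r h) ↔ HasSoliton r h) :
    (∃ f : List (List ℕ) × List (List ℕ) → Bool, Computable f ∧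
      ∀ (A : Type) [AddCommGroup A] (m : ℕ) (e : A ≃ Fin m) (r : ℕ) (h : ℕ → A →+ A),
        f (table e, rules e r h) = true ↔ HasSoliton r h) ∧
    ComputablePred (fun p : List (List ℕ) × List (List ℕ) =>
      ∃ (A : Type) (_ : AddCommGroup A) (m : ℕ) (e : A ≃ Fin m) (r : ℕ) (h : ℕ → A →+ A),
        p = (table e, rules e r h)) ∧
    ComputablePred (fun p : List (List ℕ) × List (List ℕ) =>
      ∃ (A : Type) (_ : AddCommGroup A) (m : ℕ) (e : A ≃ Fin m) (r : ℕ) (h : ℕ → A →+ A),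
        p = (table e, rules e r h) ∧ HasSoliton r h) := by
  refine ⟨?_, ?_, ?_⟩
  · obtain ⟨d, hd⟩ := hP
    exact ⟨fun p => decide (Search p), hd.to_comp, fun A _ m e r h => by
      rw [decide_eq_true_iff, hS A m e r h]⟩
  · refine to_cp (valid_prim.of_eq fun p => ?_)
    constructor
    · exact of_valid p
    · rintro ⟨A, i, m, e, r, h, rfl⟩
      exact valid_of e r h
  · refine to_cp ((valid_prim.and hP).of_eq fun p => ?_)
    constructor
    · rintro ⟨hv, hs⟩
      obtain ⟨A, i, m, e, r, h, rfl⟩ := of_valid p hv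
      exact ⟨A, i, m, e, r, h, rfl, (hS A m e r h).1 hs⟩
    · rintro ⟨A, i, m, e, r, h, rfl, hs⟩
      exact ⟨valid_of e r h, (hS A m e r h).2 hs⟩

end Pool.Agent.Q325.SO
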