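import Mathlib

/-!
# Blueprint for MP_5c31ca_lc, Q1: having a soliton is decidable for abelian cellular automata

`A` a finite abelian group, `h j : A →+ A` (`j ≤ 2r`), `F r h x i = ∑ j ≤ 2r, h j (x (i + j - r))`.
Prove `theorem TaskX_proof : TaskX` in `Pool/Agent/Q325/SO/TaskX.lean`, namespace
`Pool.Agent.Q325.SO`, `import Pool.Agent.Q325.SO.Stmts`; helper lemmas private.
-/

set_option autoImplicit false

namespace Pool.Agent.Q325.SO

open Polynomial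

/-! ### The definitions of the problem -/

/-- the global map of the abelian cellular automaton with the radius `r` -/
def F {A : Type} [AddCommGroup A] (r : ℕ) (h : ℕ → A →+ A) (x : ℤ → A) : ℤ → A :=
  fun i => ∑ j ∈ Finset.range (2 * r + 1), h j (x (i + j - r))

/-- the cells where two configurations differ -/
def Diff {A : Type} (x y : ℤ → A) : Set ℤ := {i | x i ≠ y i}

/-- there is a soliton -/
def HasSoliton {A : Type} [AddCommGroup A] (r : ℕ) (h : ℕ → A →+ A) : Prop :=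
  ∃ x y : ℤ → A, x ≠ y ∧ (Diff x y).Finite ∧ ∃ D : ℤ, ∀ t : ℕ,
    ∀ i ∈ Diff ((F r h)^[t] x) ((F r h)^[t] y), ∀ j ∈ Diff ((F r h)^[t] x) ((F r h)^[t] y),
      j - i ≤ D

/-- the group table, for a numbering `e` of the elements -/
def table {A : Type} [AddCommGroup A] {m : ℕ} (e : A ≃ Fin m) : List (List ℕ) :=
  List.ofFn fun a : Fin m => List.ofFn fun b : Fin m => (e (e.symm a + e.symm b) : ℕ)

/-- the tables of the endomorphisms -/
def rules {A : Type} [AddCommGroup A] {m : ℕ} (e : A ≃ Fin m) (r : ℕ) (h : ℕ → A →+ A) :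
    List (List ℕ) :=
  (List.range (2 * r + 1)).map fun j => List.ofFn fun a : Fin m => (e (h j (e.symm a)) : ℕ)

/-! ### Auxiliary definitions -/

/-- the support has a diameter less than `D` -/
def Bd {A : Type} [AddCommGroup A] (D : ℕ) (x : ℤ → A) : Prop :=
  ∀ i j : ℤ, x i ≠ 0 → x j ≠ 0 → j < i + D

/-- the support is finite -/
def Fs {A : Type} [AddCommGroup A] (x : ℤ → A) : Prop := {i | x i ≠ 0}.Finite

/-- shift -/
def sh {A : Type} (s : ℤ) (x : ℤ → A) : ℤ → A := fun i => x (i + s)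

/-- a nonzero configuration whose iterates have supports of diameter less than `D` -/
def Sol {A : Type} [AddCommGroup A] (r : ℕ) (h : ℕ → A →+ A) (D : ℕ) : Prop :=
  ∃ x : ℤ → A, x ≠ 0 ∧ ∀ t : ℕ, Bd D ((F r h)^[t] x)

/-- the number of the zero element -/
def zeroIdx (T : List (List ℕ)) : ℕ :=
  (List.range T.length).findIdx fun a => (T.getD a []).getD a (a + 1) == a

/-- all words of length `D` over `{0, ..., m - 1}` -/
def words (m D : ℕ) : List (List ℕ) :=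
  (fun L : List (List ℕ) => L.flatMap fun w => (List.range m).map fun a => a :: w)^[D] [[]]

/-- one step on words (the word gets longer by `H.length - 1 = 2 r`) -/
def stepL (z : ℕ) (T H : List (List ℕ)) (w : List ℕ) : List ℕ :=
  (List.range (w.length + (H.length - 1))).map fun i =>
    (List.range H.length).foldl (fun acc j =>
      (T.getD acc []).getD ((H.getD j []).getD
        (if H.length - 1 ≤ i + j then w.getD (i + j - (H.length - 1)) z else z) z) z) z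

/-- the bound on words -/
def BdL (D z : ℕ) (w : List ℕ) : Prop :=
  ∀ i < w.length, ∀ j < w.length, w.getD i z ≠ z → w.getD j z ≠ z → j < i + D

/-- the period bound -/
def KK (m : ℕ) : ℕ := m * m ^ m

/-- the bound on the diameter -/
def D0 (m r : ℕ) : ℕ := m ^ (2 * (r * KK m) + 1) + 4 * (r * KK m) + 2

/-- the search -/
def Search (p : List (List ℕ) × List (List ℕ)) : Prop :=
  ∃ w ∈ words p.1.length (D0 p.1.length ((p.2.length - 1) / 2)),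
    (∃ i < w.length, w.getD i (zeroIdx p.1) ≠ zeroIdx p.1) ∧
    ∀ t < p.1.length ^ D0 p.1.length ((p.2.length - 1) / 2) + 2,
      BdL (D0 p.1.length ((p.2.length - 1) / 2)) (zeroIdx p.1)
        ((stepL (zeroIdx p.1) p.1 p.2)^[t] w)

/-- the element with the number `a` (zero if there is none) -/
def el {A : Type} [AddCommGroup A] {m : ℕ} (e : A ≃ Fin m) (a : ℕ) : A :=
  if h : a < m then e.symm ⟨a, h⟩ else 0

/-- the configuration of a word placed at `off` -/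
def cf {A : Type} [AddCommGroup A] {m : ℕ} (e : A ≃ Fin m) (off : ℤ) (w : List ℕ) : ℤ → A :=
  fun i => if off ≤ i then el e (w.getD (i - off).toNat (e 0 : ℕ)) else 0

/-! ### Computability -/

/-- hint: `Primrec.list_map`, `list_foldl`, `list_getD`, `ite`; then `Primrec.nat_iterate` -/
def TaskPStep : Prop :=
  Primrec (fun q : ((ℕ × (List (List ℕ) × List (List ℕ))) × List ℕ) × ℕ =>
    (stepL q.1.1.1 q.1.1.2.1 q.1.1.2.2)^[q.2] q.1.2)

def TaskPWords : Prop := Primrec (fun q : ℕ × ℕ => words q.1 q.2)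

def TaskPZero : Prop := Primrec zeroIdx

def TaskPD0 : Prop := Primrec (fun q : ℕ × ℕ => D0 q.1 q.2)

def TaskPBd : Prop := PrimrecPred (fun q : (ℕ × ℕ) × List ℕ => BdL q.1.1 q.1.2 q.2)

/-- hint: `PrimrecRel.exists_mem_list`, `PrimrecRel.forall_lt`, `PrimrecRel.exists_lt` etc. -/
def TaskPSearch : Prop := TaskPStep → TaskPWords → TaskPZero → TaskPD0 → TaskPBd →
  PrimrecPred Search

def TaskWords : Prop := ∀ (m D : ℕ) (w : List ℕ), w ∈ words m D ↔ w.length = D ∧ ∀ a ∈ w, a < m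

/-! ### Words and configurations -/

/-- the only idempotent is zero -/
def TaskZero : Prop := ∀ (A : Type) [AddCommGroup A] (m : ℕ) (e : A ≃ Fin m),
  zeroIdx (table e) = (e 0 : ℕ)

/-- the step on words is the cellular automaton -/
def TaskStep : Prop := ∀ (A : Type) [AddCommGroup A] (m : ℕ) (e : A ≃ Fin m) (r : ℕ)
  (h : ℕ → A →+ A) (off : ℤ) (w : List ℕ), (∀ a ∈ w, a < m) →
  F r h (cf e off w) = cf e (off - r) (stepL (e 0 : ℕ) (table e) (rules e r h) w) ∧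
  ∀ a ∈ stepL (e 0 : ℕ) (table e) (rules e r h) w, a < m

/-- `BdL` is `Bd` -/
def TaskBd : Prop := ∀ (A : Type) [AddCommGroup A] (m : ℕ) (e : A ≃ Fin m) (off : ℤ) (D : ℕ)
  (w : List ℕ), (∀ a ∈ w, a < m) → (BdL D (e 0 : ℕ) w ↔ Bd D (cf e off w))

/-- a nonzero configuration with a small support is, up to a shift, a word of length `D` -/
def TaskWord : Prop := ∀ (A : Type) [AddCommGroup A] (m : ℕ) (e : A ≃ Fin m) (D : ℕ) (x : ℤ → A),
  x ≠ 0 → Bd D x → ∃ (s : ℤ) (w : List ℕ), w.length = D ∧ (∀ a ∈ w, a < m) ∧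
    x = cf e s w ∧ ∃ i < w.length, w.getD i (e 0 : ℕ) ≠ (e 0 : ℕ)

/-- a word with a letter that is not zero gives a nonzero configuration -/
def TaskWordNe : Prop := ∀ (A : Type) [AddCommGroup A] (m : ℕ) (e : A ≃ Fin m) (s : ℤ)
  (w : List ℕ), (∀ a ∈ w, a < m) → (∃ i < w.length, w.getD i (e 0 : ℕ) ≠ (e 0 : ℕ)) →
  cf e s w ≠ 0

/-! ### Cellular automata -/

/-- additivity and shifts -/
def TaskAdd : Prop := ∀ (A : Type) [AddCommGroup A] (r : ℕ) (h : ℕ → A →+ A) (t : ℕ),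
  (∀ x y : ℤ → A, (F r h)^[t] (x + y) = (F r h)^[t] x + (F r h)^[t] y) ∧
  (∀ x : ℤ → A, (F r h)^[t] (-x) = -(F r h)^[t] x) ∧ (F r h)^[t] (0 : ℤ → A) = 0 ∧
  (∀ (s : ℤ) (x : ℤ → A), (F r h)^[t] (sh s x) = sh s ((F r h)^[t] x)) ∧
  (∀ (x : ℤ → A) (B : ℕ), Bd B x → Bd (B + 2 * r * t) ((F r h)^[t] x)) ∧
  (∀ x : ℤ → A, Fs x → Fs ((F r h)^[t] x))

/-- difference of two configurations -/
def TaskLin : Prop := TaskAdd → ∀ (A : Type) [AddCommGroup A] (r : ℕ) (h : ℕ → A →+ A),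
  HasSoliton r h ↔ ∃ D, Sol r h D

/-- pigeonhole: at most `m ^ D` words, so the iterates up to time `m ^ D + 1` repeat up to a shift
(or vanish) -/
def TaskTime : Prop := TaskAdd → TaskWord → ∀ (A : Type) [AddCommGroup A] (m : ℕ)
  (_ : A ≃ Fin m) (r : ℕ) (h : ℕ → A →+ A) (D : ℕ) (x : ℤ → A), x ≠ 0 →
  (∀ t < m ^ D + 2, Bd D ((F r h)^[t] x)) → ∀ t, Bd D ((F r h)^[t] x)

/-- pigeonhole as in `TaskTime`: either some iterate vanishes (take the last nonzero one), or two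
iterates agree up to a shift -/
def TaskOrbit : Prop := TaskAdd → TaskWord → ∀ (A : Type) [AddCommGroup A] (m : ℕ)
  (_ : A ≃ Fin m) (r : ℕ) (h : ℕ → A →+ A) (D : ℕ), Sol r h D →
  (∃ y : ℤ → A, y ≠ 0 ∧ Fs y ∧ F r h y = 0) ∨
  ∃ (k : ℕ) (s : ℤ) (y : ℤ → A), 1 ≤ k ∧ y ≠ 0 ∧ Fs y ∧ (F r h)^[k] y = sh s y

/-- a multiple of `y` has prime order -/
def TaskTor : Prop := TaskAdd → ∀ (A : Type) [AddCommGroup A] (m : ℕ)
  (_ : A ≃ Fin m) (r : ℕ) (h : ℕ → A →+ A) (k : ℕ) (s : ℤ) (y : ℤ → A), y ≠ 0 → Fs y →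
  (F r h)^[k] y = sh s y → ∃ (p : ℕ) (y' : ℤ → A), p.Prime ∧ p ≤ m ∧ y' ≠ 0 ∧ Fs y' ∧
    p • y' = 0 ∧ (F r h)^[k] y' = sh s y'

/-- the speed is at most `r` -/
def TaskSpeed : Prop := TaskAdd → ∀ (A : Type) [AddCommGroup A] (r : ℕ) (h : ℕ → A →+ A) (k : ℕ)
  (s : ℤ) (y : ℤ → A), y ≠ 0 → Fs y → (F r h)^[k] y = sh s y → |s| ≤ r * k

/-- `F ^ k - shift` is an abelian cellular automaton of radius `r k` -/
def TaskPow : Prop := ∀ (A : Type) [AddCommGroup A] (r : ℕ) (h : ℕ → A →+ A) (k : ℕ) (s : ℤ),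
  |s| ≤ r * k → ∃ g : ℕ → A →+ A, ∀ x : ℤ → A, F (r * k) g x = (F r h)^[k] x - sh s x

/-- pigeonhole: take `y` with the shortest support; if the support is longer than
`m ^ (2 R) + 2 R`, two windows of length `2 R` (after the first nonzero cell) agree; cut out the
part between them; the first nonzero cell remains -/
def TaskKer : Prop := ∀ (A : Type) [AddCommGroup A] (m : ℕ) (_ : A ≃ Fin m) (R : ℕ)
  (g : ℕ → A →+ A), (∃ y : ℤ → A, y ≠ 0 ∧ Fs y ∧ F R g y = 0) →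
  ∃ y : ℤ → A, y ≠ 0 ∧ Bd (m ^ (2 * R + 1) + 2 * R + 2) y ∧ F R g y = 0

/-- all iterates are shifts of `F ^ t y`, `t < k` -/
def TaskPeriod : Prop := TaskAdd → ∀ (A : Type) [AddCommGroup A] (r : ℕ) (h : ℕ → A →+ A)
  (k : ℕ) (s : ℤ) (y : ℤ → A) (B : ℕ), 1 ≤ k → y ≠ 0 → Bd B y → (F r h)^[k] y = sh s y →
  Sol r h (B + 2 * r * k)

/-! ### Algebra -/

/-- roots of unity. Hint: `ζ` generates a finite field `F_p[ζ]` with `p ^ e` elements, and
`1, ζ, ..., ζ^(e-1)` are linearly independent over `RatFunc`: clear the denominators; the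
coefficients of the powers of `X` vanish, as `X` is transcendental over the algebraic extension
`F_p[ζ]` of `F_p` -/
def TaskOrder : Prop := ∀ (p : ℕ) [Fact p.Prime] (L : Type) [Field L] [Algebra (RatFunc (ZMod p)) L]
  [FiniteDimensional (RatFunc (ZMod p)) L] (ζ : L) (g : ℕ), 1 ≤ g → ζ ^ g = 1 →
  ∃ e, 1 ≤ e ∧ e ≤ Module.finrank (RatFunc (ZMod p)) L ∧ ζ ^ (p ^ e - 1) = 1

/-- Hint: `g = gcd(k, s)`, `k = g k₁`, `s = g s₁`, `a k₁ + b s₁ = 1`, `μ = l ^ b X ^ a`,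
`ζ = l ^ k₁ X ^ (-s₁)`, `μ ^ k₁ = ζ ^ b X`; take the norm and `RatFunc.intDegree`: the degree of a
root of unity is zero, so `k₁ ∣ finrank` -/
def TaskNorm : Prop := ∀ (p : ℕ) [Fact p.Prime] (L : Type) [Field L] [Algebra (RatFunc (ZMod p)) L]
  [FiniteDimensional (RatFunc (ZMod p)) L] (l : L) (k : ℕ) (s : ℤ), 1 ≤ k →
  l ^ k = (algebraMap (RatFunc (ZMod p)) L RatFunc.X) ^ s →
  ∃ (k₁ : ℕ) (s₁ : ℤ) (g : ℕ), 1 ≤ g ∧ 1 ≤ k₁ ∧ k₁ ≤ Module.finrank (RatFunc (ZMod p)) L ∧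
    (l ^ k₁ * (algebraMap (RatFunc (ZMod p)) L RatFunc.X) ^ (-s₁)) ^ g = 1

/-- from the two previous ones -/
def TaskField : Prop := TaskOrder → TaskNorm → ∀ (p : ℕ) [Fact p.Prime] (L : Type) [Field L]
  [Algebra (RatFunc (ZMod p)) L] [FiniteDimensional (RatFunc (ZMod p)) L] (n : ℕ),
  Module.finrank (RatFunc (ZMod p)) L ≤ n → ∀ (l : L) (k : ℕ) (s : ℤ), 1 ≤ k →
  l ^ k = (algebraMap (RatFunc (ZMod p)) L RatFunc.X) ^ s →
  ∃ (k' : ℕ) (s' : ℤ), 1 ≤ k' ∧ k' ≤ n * p ^ n ∧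
    l ^ k' = (algebraMap (RatFunc (ZMod p)) L RatFunc.X) ^ s'

/-- Hint: `q` an irreducible factor of the minimal polynomial `μ_y` of `y` (with respect to `φ`),
`L = AdjoinRoot q`; `q ∣ T ^ k - X ^ s`; TaskField; so `q ∣ T ^ k' - X ^ s'`; `y' = (μ_y / q)(φ) y` -/
def TaskLA : Prop :=
  (∀ (p : ℕ) [Fact p.Prime] (L : Type) [Field L]
  [Algebra (RatFunc (ZMod p)) L] [FiniteDimensional (RatFunc (ZMod p)) L] (n : ℕ),
  Module.finrank (RatFunc (ZMod p)) L ≤ n → ∀ (l : L) (k : ℕ) (s : ℤ), 1 ≤ k →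
  l ^ k = (algebraMap (RatFunc (ZMod p)) L RatFunc.X) ^ s →
  ∃ (k' : ℕ) (s' : ℤ), 1 ≤ k' ∧ k' ≤ n * p ^ n ∧
    l ^ k' = (algebraMap (RatFunc (ZMod p)) L RatFunc.X) ^ s') →
  ∀ (p : ℕ) [Fact p.Prime] (V : Type) [AddCommGroup V] [Module (RatFunc (ZMod p)) V]
  [FiniteDimensional (RatFunc (ZMod p)) V] (n : ℕ), Module.finrank (RatFunc (ZMod p)) V ≤ n →
  ∀ (φ : V →ₗ[RatFunc (ZMod p)] V) (k : ℕ) (s : ℤ) (y : V), 1 ≤ k → y ≠ 0 →
  (φ ^ k) y = (RatFunc.X : RatFunc (ZMod p)) ^ s • y →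
  ∃ (k' : ℕ) (s' : ℤ) (y' : V), 1 ≤ k' ∧ k' ≤ n * p ^ n ∧ y' ≠ 0 ∧
    (φ ^ k') y' = (RatFunc.X : RatFunc (ZMod p)) ^ s' • y'

/-- a torsion-free module over `F_p[X]` on which `X` acts by the bijection `S`, generated (with
`X⁻¹`) by `n` elements. Hint: `M` is a module over `(ZMod p)[X]` (`Module.AEval'` of `S`), `V` the
localised module over `RatFunc (ZMod p)` (or `RatFunc ⊗ M`); `M → V` is injective, `finrank V ≤ n`;
clear the denominators of `y'` -/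
def TaskAbs : Prop :=
  (∀ (p : ℕ) [Fact p.Prime] (V : Type) [AddCommGroup V] [Module (RatFunc (ZMod p)) V]
  [FiniteDimensional (RatFunc (ZMod p)) V] (n : ℕ), Module.finrank (RatFunc (ZMod p)) V ≤ n →
  ∀ (φ : V →ₗ[RatFunc (ZMod p)] V) (k : ℕ) (s : ℤ) (y : V), 1 ≤ k → y ≠ 0 →
  (φ ^ k) y = (RatFunc.X : RatFunc (ZMod p)) ^ s • y →
  ∃ (k' : ℕ) (s' : ℤ) (y' : V), 1 ≤ k' ∧ k' ≤ n * p ^ n ∧ y' ≠ 0 ∧
    (φ ^ k') y' = (RatFunc.X : RatFunc (ZMod p)) ^ s' • y') →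
  ∀ (p : ℕ) [Fact p.Prime] (M : Type) [AddCommGroup M] [Module (ZMod p) M]
  (S : M ≃ₗ[ZMod p] M) (φ : M →ₗ[ZMod p] M), (∀ x, φ (S x) = S (φ x)) →
  (∀ (q : (ZMod p)[X]) (x : M), q ≠ 0 → aeval (S : M →ₗ[ZMod p] M) q x = 0 → x = 0) →
  ∀ (n : ℕ) (b : Fin n → M), Submodule.span (ZMod p) {x | ∃ (i : Fin n) (j : ℤ),
    x = (S ^ j) (b i)} = ⊤ →
  ∀ (k : ℕ) (s : ℤ) (y : M), 1 ≤ k → y ≠ 0 → (φ ^ k) y = (S ^ s) y →
  ∃ (k' : ℕ) (s' : ℤ) (y' : M), 1 ≤ k' ∧ k' ≤ n * p ^ n ∧ y' ≠ 0 ∧ (φ ^ k') y' = (S ^ s') y'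

/-- apply it to the configurations with a finite support and values of order `p` (a subgroup, with
the structure of a vector space over `ZMod p`: `AddCommGroup.zmodModule`); generated by the
configurations concentrated in the cell `0`; `S` the shift; `n = m ≥ p` -/
def TaskEig : Prop :=
  (∀ (p : ℕ) [Fact p.Prime] (M : Type) [AddCommGroup M] [Module (ZMod p) M]
  (S : M ≃ₗ[ZMod p] M) (φ : M →ₗ[ZMod p] M), (∀ x, φ (S x) = S (φ x)) →
  (∀ (q : (ZMod p)[X]) (x : M), q ≠ 0 → aeval (S : M →ₗ[ZMod p] M) q x = 0 → x = 0) →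
  ∀ (n : ℕ) (b : Fin n → M), Submodule.span (ZMod p) {x | ∃ (i : Fin n) (j : ℤ),
    x = (S ^ j) (b i)} = ⊤ →
  ∀ (k : ℕ) (s : ℤ) (y : M), 1 ≤ k → y ≠ 0 → (φ ^ k) y = (S ^ s) y →
  ∃ (k' : ℕ) (s' : ℤ) (y' : M), 1 ≤ k' ∧ k' ≤ n * p ^ n ∧ y' ≠ 0 ∧ (φ ^ k') y' = (S ^ s') y') →
  TaskAdd →
  ∀ (A : Type) [AddCommGroup A] (m : ℕ) (_ : A ≃ Fin m) (r : ℕ) (h : ℕ → A →+ A) (k : ℕ) (s : ℤ)
  (p : ℕ) (y : ℤ → A), p.Prime → p ≤ m → 1 ≤ k → y ≠ 0 → Fs y → p • y = 0 →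
  (F r h)^[k] y = sh s y →
  ∃ (k' : ℕ) (s' : ℤ) (y' : ℤ → A), 1 ≤ k' ∧ k' ≤ KK m ∧ y' ≠ 0 ∧ Fs y' ∧
    (F r h)^[k'] y' = sh s' y'

end Pool.Agent.Q325.SO
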