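import Pool.Agent.Q325.SO.Stmts

set_option autoImplicit false

namespace Pool.Agent.Q325.SO

open Polynomial TensorProduct

private theorem commute_aeval {p : ℕ} [Fact p.Prime] {M : Type} [AddCommGroup M] [Module (ZMod p) M]
    (S φ : M →ₗ[ZMod p] M) (h : ∀ x, φ (S x) = S (φ x)) (q : (ZMod p)[X]) (x : M) :
    φ (aeval S q x) = aeval S q (φ x) := by
  have hc : Commute (φ : Module.End (ZMod p) M) S := by
    apply LinearMap.ext
    intro x
    exact h x
  have : Commute (φ : Module.End (ZMod p) M) (aeval S q) := by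
    induction q using Polynomial.induction_on' with
    | add q r hq hr => rw [map_add]; exact hq.add_right hr
    | monomial n a =>
      rw [aeval_monomial]
      exact (Algebra.commute_algebraMap_right a φ).mul_right (hc.pow_right n)
  exact LinearMap.congr_fun this.eq x

theorem TaskAbs_proof : TaskAbs := by
  intro LA p _ M _ _ S φ hφ htf n b hb k s y hk hy hky
  classical
  let _ : Module (ZMod p)[X] M :=
    Module.compHom M (aeval (S : M →ₗ[ZMod p] M) : (ZMod p)[X] →ₐ[ZMod p] Module.End (ZMod p) M).toRingHom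
  have hsm : ∀ (q : (ZMod p)[X]) (x : M), q • x = aeval (S : M →ₗ[ZMod p] M) q x := fun q x => rfl
  have hXs : ∀ x : M, (X : (ZMod p)[X]) • x = S x := by
    intro x
    rw [hsm, aeval_X]
    rfl
  let φ' : M →ₗ[(ZMod p)[X]] M :=
    { toFun := φ
      map_add' := map_add φ
      map_smul' := by
        intro q x
        rw [hsm, hsm]
        exact commute_aeval _ _ hφ q x }
  let K := RatFunc (ZMod p)
  let V := K ⊗[(ZMod p)[X]] M
  let ι : M →ₗ[(ZMod p)[X]] V := TensorProduct.mk (ZMod p)[X] K M 1
  have hloc : IsLocalizedModule (nonZeroDivisors (ZMod p)[X]) ι :=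
    (isLocalizedModule_iff_isBaseChange (nonZeroDivisors (ZMod p)[X]) K ι).2
      (TensorProduct.isBaseChange _ _ _)
  have hinj : Function.Injective ι := by
    intro x z hxz
    obtain ⟨c, hc⟩ := (IsLocalizedModule.eq_iff_exists (nonZeroDivisors (ZMod p)[X]) ι).1 hxz
    have h1 : (c : (ZMod p)[X]) • (x - z) = 0 := by
      rw [smul_sub]
      exact sub_eq_zero.2 hc
    have h2 := htf c (x - z) (nonZeroDivisors.ne_zero c.2) (by rw [← hsm]; exact h1)
    exact sub_eq_zero.1 h2
  have hX0 : (RatFunc.X : K) ≠ 0 := RatFunc.X_ne_zero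
  have hιq : ∀ (q : (ZMod p)[X]) (x : M), ι (q • x) = (algebraMap (ZMod p)[X] K q) • ι x := by
    intro q x
    rw [map_smul, algebraMap_smul]
  have hιS : ∀ x : M, ι (S x) = (RatFunc.X : K) • ι x := by
    intro x
    rw [← hXs, hιq, RatFunc.algebraMap_X]
  have hιz : ∀ (j : ℤ) (x : M), ι ((S ^ j) x) = (RatFunc.X : K) ^ j • ι x := by
    intro j
    induction j using Int.induction_on with
    | zero => intro x; simp
    | succ i ih =>
      intro x
      rw [zpow_add_one, zpow_add_one₀ hX0, mul_smul, ← hιS, ← ih]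
      rfl
    | pred i ih =>
      intro x
      have h1 : (S ^ (-(i : ℤ) - 1)) x = (S ^ (-(i : ℤ))) ((S⁻¹) x) := by
        rw [zpow_sub_one]
        rfl
      have h2 : (RatFunc.X : K) • ι ((S⁻¹) x) = ι x := by
        rw [← hιS]
        congr 1
        exact S.apply_symm_apply x
      rw [h1, ih, zpow_sub_one₀ hX0, mul_smul]
      congr 1
      rw [← h2, smul_smul, inv_mul_cancel₀ hX0, one_smul]
  -- the span
  have hspan : Submodule.span K (Set.range fun i => ι (b i)) = ⊤ := by
    set W := Submodule.span K (Set.range fun i => ι (b i)) with hW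
    have hall : ∀ x : M, ι x ∈ W := by
      intro x
      have hx : x ∈ Submodule.span (ZMod p) {x | ∃ (i : Fin n) (j : ℤ), x = (S ^ j) (b i)} := by
        rw [hb]; trivial
      induction hx using Submodule.span_induction with
      | mem x h =>
        obtain ⟨i, j, rfl⟩ := h
        rw [hιz]
        exact W.smul_mem _ (Submodule.subset_span ⟨i, rfl⟩)
      | zero => rw [map_zero]; exact W.zero_mem
      | add x z _ _ hx hz => rw [map_add]; exact W.add_mem hx hz
      | smul a x _ hx =>
        have : (a • x : M) = (C a : (ZMod p)[X]) • x := by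
          rw [hsm, aeval_C]
          rfl
        rw [this, hιq]
        exact W.smul_mem _ hx
    rw [eq_top_iff]
    intro v _
    induction v using TensorProduct.induction_on with
    | zero => exact W.zero_mem
    | tmul a x =>
      have : (a ⊗ₜ[(ZMod p)[X]] x : V) = a • ι x := by
        change _ = a • ((1 : K) ⊗ₜ[(ZMod p)[X]] x)
        rw [TensorProduct.smul_tmul', smul_eq_mul, mul_one]
      rw [this]
      exact W.smul_mem _ (hall x)
    | add x z hx hz => exact W.add_mem (hx trivial) (hz trivial)
  have hfin : FiniteDimensional K V := ⟨⟨Finset.univ.image fun i => ι (b i), by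
    rw [← hspan]; simp⟩⟩
  have hrank : Module.finrank K V ≤ n := by
    have h1 := finrank_range_le_card (R := K) (fun i => ι (b i))
    rw [Fintype.card_fin, Set.finrank, hspan, finrank_top] at h1
    exact h1
  let Φ : V →ₗ[K] V := φ'.baseChange K
  have hΦ : ∀ x : M, Φ (ι x) = ι (φ x) := fun x => rfl
  have hΦk : ∀ (m : ℕ) (x : M), (Φ ^ m) (ι x) = ι ((φ ^ m) x) := by
    intro m
    induction m with
    | zero => intro x; rfl
    | succ m ih =>
      intro x
      rw [pow_succ, pow_succ, Module.End.mul_apply, Module.End.mul_apply, hΦ, ih]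
  obtain ⟨k', s', v, hk1, hk2, hv, hkv⟩ := LA p V n hrank Φ k s (ι y) hk
    (by
      intro h
      exact hy (hinj (by rw [h, map_zero])))
    (by rw [hΦk, hky, hιz])
  obtain ⟨⟨x, c⟩, hxc⟩ := IsLocalizedModule.surj (nonZeroDivisors (ZMod p)[X]) ι v
  have hxc' : (algebraMap (ZMod p)[X] K c) • v = ι x := by
    rw [algebraMap_smul]
    exact hxc
  have hc0 : algebraMap (ZMod p)[X] K c ≠ 0 := by
    intro h
    exact nonZeroDivisors.ne_zero c.2 ((FaithfulSMul.algebraMap_injective (ZMod p)[X] K) (by
      rw [h, map_zero]))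
  refine ⟨k', s', x, hk1, hk2, ?_, ?_⟩
  · intro h
    rw [h, map_zero] at hxc'
    exact (smul_ne_zero hc0 hv) hxc'
  · apply hinj
    rw [← hΦk, hιz, ← hxc', map_smul, hkv, smul_comm]

end Pool.Agent.Q325.SO
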