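import Pool.Agent.Q325.SO.Stmts

set_option autoImplicit false

namespace Pool.Agent.Q325.SO

private lemma F_add1 {A : Type} [AddCommGroup A] (r : ℕ) (h : ℕ → A →+ A) (x y : ℤ → A) :
    F r h (x + y) = F r h x + F r h y := by
  funext i
  simp only [F, Pi.add_apply, map_add, Finset.sum_add_distrib]

private lemma F_neg1 {A : Type} [AddCommGroup A] (r : ℕ) (h : ℕ → A →+ A) (x : ℤ → A) :
    F r h (-x) = -F r h x := by
  funext i
  simp only [F, Pi.neg_apply, map_neg, Finset.sum_neg_distrib]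

private lemma F_zero1 {A : Type} [AddCommGroup A] (r : ℕ) (h : ℕ → A →+ A) :
    F r h (0 : ℤ → A) = 0 := by
  funext i
  simp only [F, Pi.zero_apply, map_zero, Finset.sum_const_zero]

private lemma F_sh1 {A : Type} [AddCommGroup A] (r : ℕ) (h : ℕ → A →+ A) (s : ℤ) (x : ℤ → A) :
    F r h (sh s x) = sh s (F r h x) := by
  funext i
  simp only [F, sh]
  refine Finset.sum_congr rfl fun j _ => ?_
  congr 2
  ring

private lemma F_ne1 {A : Type} [AddCommGroup A] (r : ℕ) (h : ℕ → A →+ A) (x : ℤ → A) (i : ℤ)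
    (hi : F r h x i ≠ 0) : ∃ j ∈ Finset.range (2 * r + 1), x (i + j - r) ≠ 0 := by
  by_contra hc
  push Not at hc
  apply hi
  simp only [F]
  refine Finset.sum_eq_zero fun j hj => ?_
  rw [hc j hj, map_zero]

private lemma F_Bd1 {A : Type} [AddCommGroup A] (r : ℕ) (h : ℕ → A →+ A) (x : ℤ → A) (B : ℕ)
    (hx : Bd B x) : Bd (B + 2 * r) (F r h x) := by
  intro i j hi hj
  obtain ⟨a, ha, ha'⟩ := F_ne1 r h x i hi
  obtain ⟨b, hb, hb'⟩ := F_ne1 r h x j hj
  have h1 := hx _ _ ha' hb'
  rw [Finset.mem_range] at ha hb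
  push_cast
  omega

private lemma F_Fs1 {A : Type} [AddCommGroup A] (r : ℕ) (h : ℕ → A →+ A) (x : ℤ → A)
    (hx : Fs x) : Fs (F r h x) := by
  have h1 : {i | F r h x i ≠ 0} ⊆
      ⋃ j ∈ Finset.range (2 * r + 1), (fun i : ℤ => i + (j : ℤ) - r) ⁻¹' {i | x i ≠ 0} := by
    intro i hi
    obtain ⟨j, hj, hj'⟩ := F_ne1 r h x i hi
    simp only [Set.mem_iUnion]
    exact ⟨j, hj, hj'⟩
  refine Set.Finite.subset ?_ h1
  refine Set.Finite.biUnion (Finset.finite_toSet _) fun j _ => ?_
  refine Set.Finite.preimage ?_ hx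
  intro a _ b _ hab
  simp only at hab
  omega

theorem TaskAdd_proof : TaskAdd := by
  intro A _ r h t
  induction t with
  | zero =>
    refine ⟨fun x y => rfl, fun x => rfl, rfl, fun s x => rfl, fun x B hx => ?_, fun x hx => hx⟩
    simpa using hx
  | succ t ih =>
    obtain ⟨i1, i2, i3, i4, i5, i6⟩ := ih
    refine ⟨fun x y => ?_, fun x => ?_, ?_, fun s x => ?_, fun x B hx => ?_, fun x hx => ?_⟩
    · simp only [Function.iterate_succ_apply', i1, F_add1]
    · simp only [Function.iterate_succ_apply', i2, F_neg1]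
    · simp only [Function.iterate_succ_apply', i3, F_zero1]
    · simp only [Function.iterate_succ_apply', i4, F_sh1]
    · rw [Function.iterate_succ_apply']
      have h1 := F_Bd1 r h _ _ (i5 x B hx)
      have h2 : B + 2 * r * t + 2 * r = B + 2 * r * (t + 1) := by ring
      rwa [h2] at h1
    · rw [Function.iterate_succ_apply']
      exact F_Fs1 r h _ (i6 x hx)

end Pool.Agent.Q325.SO
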