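import Pool.Agent.Q325.SO.Stmts

set_option autoImplicit false

namespace Pool.Agent.Q325.SO

private theorem getD_lt {A : Type} [AddCommGroup A] {m : ℕ} (e : A ≃ Fin m) (w : List ℕ)
    (hw : ∀ a ∈ w, a < m) (k : ℕ) : w.getD k (e 0 : ℕ) < m := by
  by_cases hk : k < w.length
  · rw [List.getD_eq_getElem _ _ hk]
    exact hw _ (List.getElem_mem hk)
  · rw [List.getD_eq_default _ _ (not_lt.1 hk)]
    exact (e 0).2

private theorem el_ne {A : Type} [AddCommGroup A] {m : ℕ} (e : A ≃ Fin m) (a : ℕ) (ha : a < m) :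
    el e a ≠ 0 ↔ a ≠ (e 0 : ℕ) := by
  unfold el
  rw [dif_pos ha, not_iff_not]
  constructor
  · intro h
    have h1 : (⟨a, ha⟩ : Fin m) = e 0 := by
      rw [← h, Equiv.apply_symm_apply]
    exact congrArg Fin.val h1
  · intro h
    have h1 : (⟨a, ha⟩ : Fin m) = e 0 := Fin.ext h
    rw [h1, Equiv.symm_apply_apply]

private theorem cf_ne {A : Type} [AddCommGroup A] {m : ℕ} (e : A ≃ Fin m) (off : ℤ) (w : List ℕ)
    (hw : ∀ a ∈ w, a < m) (i : ℤ) :
    cf e off w i ≠ 0 ↔ off ≤ i ∧ w.getD (i - off).toNat (e 0 : ℕ) ≠ (e 0 : ℕ) := by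
  unfold cf
  by_cases h : off ≤ i
  · rw [if_pos h, el_ne e _ (getD_lt e w hw _)]
    simp [h]
  · rw [if_neg h]
    simp [h]

theorem TaskBd_proof : TaskBd := by
  intro A _ m e off D w hw
  constructor
  · intro h i j hi hj
    rw [cf_ne e off w hw] at hi hj
    obtain ⟨hi1, hi2⟩ := hi
    obtain ⟨hj1, hj2⟩ := hj
    have hil : (i - off).toNat < w.length := by
      by_contra hc
      exact hi2 (List.getD_eq_default _ _ (not_lt.1 hc))
    have hjl : (j - off).toNat < w.length := by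
      by_contra hc
      exact hj2 (List.getD_eq_default _ _ (not_lt.1 hc))
    have h1 := h _ hil _ hjl hi2 hj2
    omega
  · intro h i hi j hj hi2 hj2
    have h1 := h (off + i) (off + j) ((cf_ne e off w hw _).2 ⟨by omega, by
      rw [show (off + (i : ℤ) - off).toNat = i by omega]; exact hi2⟩)
      ((cf_ne e off w hw _).2 ⟨by omega, by
      rw [show (off + (j : ℤ) - off).toNat = j by omega]; exact hj2⟩)
    omega

end Pool.Agent.Q325.SO
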