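import Pool.Agent.Q325.SO.Stmts

set_option autoImplicit false

namespace Pool.Agent.Q325.SO

open Polynomial

namespace EigAux

/-- configurations with a finite support killed by `p` -/
def MM (A : Type) [AddCommGroup A] (p : ℕ) : AddSubgroup (ℤ → A) where
  carrier := {x | Fs x ∧ p • x = 0}
  zero_mem' := by
    refine ⟨?_, smul_zero p⟩
    simp [Fs]
  add_mem' := by
    rintro x y ⟨hx, hx'⟩ ⟨hy, hy'⟩
    refine ⟨?_, by rw [smul_add, hx', hy', add_zero]⟩
    refine (Set.Finite.union hx hy).subset ?_
    intro i hi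
    by_contra hc
    simp only [Set.mem_union, Set.mem_ofPred_eq, not_or, not_not] at hc
    exact hi (by simp [hc.1, hc.2])
  neg_mem' := by
    rintro x ⟨hx, hx'⟩
    refine ⟨?_, by rw [smul_neg, hx', neg_zero]⟩
    refine Set.Finite.subset hx ?_
    intro i hi hc
    exact hi (by simp [hc])

instance instMod (A : Type) [AddCommGroup A] (p : ℕ) : Module (ZMod p) (MM A p) :=
  AddCommGroup.zmodModule (n := p) (fun x => Subtype.ext x.2.2)

variable {A : Type} [AddCommGroup A] {p : ℕ}

theorem fs_sh {x : ℤ → A} (s : ℤ) (hx : Fs x) : Fs (sh s x) := by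
  have : {i | sh s x i ≠ 0} = (fun i => i + s) ⁻¹' {i | x i ≠ 0} := rfl
  unfold Fs
  rw [this]
  exact Set.Finite.preimage (fun a _ b _ hab => by simpa using hab) hx

/-- the shift on `MM` -/
def shM (A : Type) [AddCommGroup A] (p : ℕ) (s : ℤ) : MM A p →+ MM A p where
  toFun x := ⟨sh s x.1, fs_sh s x.2.1, by
    have := x.2.2
    funext i
    exact congrFun this (i + s)⟩
  map_zero' := rfl
  map_add' _ _ := rfl

/-- the shift by one as an equivalence -/
def Sh (A : Type) [AddCommGroup A] (p : ℕ) : MM A p ≃ₗ[ZMod p] MM A p :=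
  LinearEquiv.ofLinearMap ((shM A p 1).toZModLinearMap p) ((shM A p (-1)).toZModLinearMap p)
    (by
      refine LinearMap.ext fun x => Subtype.ext ?_
      funext i
      show x.1 (i + 1 + -1) = x.1 i
      exact congrArg x.1 (by ring))
    (by
      refine LinearMap.ext fun x => Subtype.ext ?_
      funext i
      show x.1 (i + -1 + 1) = x.1 i
      exact congrArg x.1 (by ring))

theorem Sh_apply (x : MM A p) : (Sh A p x).1 = sh 1 x.1 := rfl

theorem Sh_inv_apply (x : MM A p) : ((Sh A p)⁻¹ x).1 = sh (-1) x.1 := rfl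

theorem Sh_zpow (j : ℤ) : ∀ x : MM A p, ((Sh A p ^ j) x).1 = sh j x.1 := by
  induction j using Int.induction_on with
  | zero =>
    intro x
    rw [zpow_zero]
    funext i
    show x.1 i = x.1 (i + 0)
    rw [add_zero]
  | succ j ih =>
    intro x
    rw [zpow_add_one, LinearEquiv.mul_apply, ih, Sh_apply]
    funext i
    show x.1 (i + j + 1) = x.1 (i + (j + 1))
    exact congrArg x.1 (by ring)
  | pred j ih =>
    intro x
    rw [zpow_sub_one, LinearEquiv.mul_apply, ih, Sh_inv_apply]
    funext i
    show x.1 (i + -j + -1) = x.1 (i + (-j - 1))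
    exact congrArg x.1 (by ring)

theorem smul_val (c : ZMod p) (x : MM A p) [NeZero p] (i : ℤ) :
    (c • x).1 i = c.val • x.1 i := by
  have : c • x = c.val • x := by
    conv_lhs => rw [← ZMod.natCast_zmod_val c]
    rw [Nat.cast_smul_eq_nsmul]
  rw [this]
  rfl

theorem pow_coe (j : ℕ) : ∀ x : MM A p,
    ((Sh A p : MM A p →ₗ[ZMod p] MM A p) ^ j) x = (Sh A p ^ (j : ℤ)) x := by
  induction j with
  | zero => intro x; rfl
  | succ j ih =>
    intro x
    rw [pow_succ, Module.End.mul_apply, ih]
    push_cast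
    rw [zpow_add_one, LinearEquiv.mul_apply]

/-- the evaluation at a cell -/
def ev (A : Type) [AddCommGroup A] (p : ℕ) (i : ℤ) : MM A p →+ A where
  toFun x := x.1 i
  map_zero' := rfl
  map_add' _ _ := rfl

theorem torsionfree [Fact p.Prime] (q : (ZMod p)[X]) (x : MM A p) (hq : q ≠ 0)
    (h : aeval ((Sh A p : MM A p ≃ₗ[ZMod p] MM A p) : MM A p →ₗ[ZMod p] MM A p) q x = 0) :
    x = 0 := by
  by_contra hx
  have hne : {i | x.1 i ≠ 0}.Nonempty := by
    by_contra hc
    rw [Set.not_nonempty_iff_eq_empty] at hc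
    apply hx
    refine Subtype.ext ?_
    funext i
    by_contra hi
    have : i ∈ {i | x.1 i ≠ 0} := hi
    rw [hc] at this
    exact this
  obtain ⟨a, ha, hmin⟩ := Set.exists_min_image _ (fun i : ℤ => i) x.2.1 hne
  have hval : ∀ i : ℤ, ∑ j ∈ Finset.range (q.natDegree + 1), (q.coeff j).val • x.1 (i + j) = 0 := by
    intro i
    have h1 := congrArg (ev A p i) h
    rw [aeval_eq_sum_range] at h1
    rw [LinearMap.sum_apply, map_sum, map_zero] at h1
    rw [← h1]
    refine Finset.sum_congr rfl fun j _ => ?_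
    show _ = ((q.coeff j • ((Sh A p : MM A p →ₗ[ZMod p] MM A p) ^ j)) x).1 i
    rw [LinearMap.smul_apply, smul_val, pow_coe, Sh_zpow]
    rfl
  have h3 := hval (a - q.natDegree)
  rw [Finset.sum_range_succ, Finset.sum_eq_zero, zero_add] at h3
  · have h4 : a - (q.natDegree : ℤ) + (q.natDegree : ℤ) = a := by ring
    rw [h4] at h3
    have h5 : q.leadingCoeff ≠ 0 := leadingCoeff_ne_zero.2 hq
    apply ha
    have hp : p • x.1 a = 0 := congrFun x.2.2 a
    have hco : Nat.Coprime (q.leadingCoeff.val) p := by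
      rw [Nat.coprime_comm]
      refine (Nat.Prime.coprime_iff_not_dvd (Fact.out : p.Prime)).2 ?_
      intro hd
      apply h5
      have := (ZMod.natCast_eq_zero_iff q.leadingCoeff.val p).2 hd
      rwa [ZMod.natCast_zmod_val] at this
    have h6 : addOrderOf (x.1 a) ∣ q.leadingCoeff.val := addOrderOf_dvd_of_nsmul_eq_zero h3
    have h7 : addOrderOf (x.1 a) ∣ p := addOrderOf_dvd_of_nsmul_eq_zero hp
    have h8 := Nat.dvd_gcd h6 h7
    rw [hco.gcd_eq_one, Nat.dvd_one, AddMonoid.addOrderOf_eq_one_iff] at h8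
    exact h8
  · intro j hj
    rw [Finset.mem_range] at hj
    by_contra hc
    have h4 : x.1 (a - q.natDegree + j) ≠ 0 := by
      intro h5
      apply hc
      rw [h5, smul_zero]
    have : a ≤ a - q.natDegree + j := hmin _ h4
    omega

/-- the configuration with the value `a` at the cell `0` -/
noncomputable def bb (p : ℕ) (a : A) : MM A p := by
  classical
  exact if h : p • a = 0 then ⟨fun i => if i = 0 then a else 0, by
    refine ⟨(Set.finite_singleton (0 : ℤ)).subset ?_, ?_⟩
    · intro i hi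
      by_contra hc
      exact hi (if_neg hc)
    · funext i
      show p • (if i = 0 then a else 0) = 0
      split_ifs
      · exact h
      · exact smul_zero p⟩ else 0

theorem span_top {m : ℕ} (e : A ≃ Fin m) [Fact p.Prime] :
    Submodule.span (ZMod p) {x : MM A p | ∃ (i : Fin m) (j : ℤ),
      x = (Sh A p ^ j) (bb p (e.symm i))} = ⊤ := by
  classical
  rw [eq_top_iff]
  rintro x -
  have hx : x = ∑ i ∈ x.2.1.toFinset, (Sh A p ^ (-i)) (bb p (x.1 i)) := by
    refine Subtype.ext ?_
    funext i
    have h1 : (∑ i ∈ x.2.1.toFinset, (Sh A p ^ (-i)) (bb p (x.1 i))).1 i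
        = ∑ j ∈ x.2.1.toFinset, ((Sh A p ^ (-j)) (bb p (x.1 j))).1 i := by
      show ev A p i _ = _
      rw [map_sum]
      rfl
    rw [h1]
    have h2 : ∀ j, ((Sh A p ^ (-j)) (bb p (x.1 j))).1 i = if j = i then x.1 i else 0 := by
      intro j
      rw [Sh_zpow]
      have hp : p • x.1 j = 0 := congrFun x.2.2 j
      unfold bb
      rw [dif_pos hp]
      show (if i + -j = 0 then x.1 j else 0) = _
      by_cases hij : j = i
      · subst hij
        rw [if_pos rfl, if_pos (by ring)]
      · rw [if_neg hij, if_neg (by omega)]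
    simp only [h2]
    rw [Finset.sum_ite_eq']
    by_cases hi : i ∈ x.2.1.toFinset
    · rw [if_pos hi]
    · rw [if_neg hi]
      by_contra hc
      exact hi ((Set.Finite.mem_toFinset (s := {i | x.1 i ≠ 0}) x.2.1).2 hc)
  rw [hx]
  refine Submodule.sum_mem _ fun i _ => Submodule.subset_span ?_
  exact ⟨e (x.1 i), -i, by rw [Equiv.symm_apply_apply]⟩

/-- the automaton on `MM` -/
def phi (hadd : TaskAdd) (p r : ℕ) (h : ℕ → A →+ A) : MM A p →+ MM A p where
  toFun x := ⟨F r h x.1, by
    have h1 := hadd A r h 1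
    simp only [Function.iterate_one] at h1
    exact h1.2.2.2.2.2 x.1 x.2.1, by
    funext i
    show p • F r h x.1 i = 0
    unfold F
    rw [Finset.smul_sum]
    refine Finset.sum_eq_zero fun j _ => ?_
    rw [← map_nsmul]
    have : p • x.1 (i + j - r) = 0 := congrFun x.2.2 _
    rw [this, map_zero]⟩
  map_zero' := by
    refine Subtype.ext ?_
    have h1 := hadd A r h 1
    simp only [Function.iterate_one] at h1
    exact h1.2.2.1
  map_add' x y := by
    refine Subtype.ext ?_
    have h1 := hadd A r h 1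
    simp only [Function.iterate_one] at h1
    exact h1.1 x.1 y.1

theorem phi_pow (hadd : TaskAdd) (r : ℕ) (h : ℕ → A →+ A) (k : ℕ) : ∀ x : MM A p,
    ((((phi hadd p r h).toZModLinearMap p) ^ k) x).1 = (F r h)^[k] x.1 := by
  induction k with
  | zero => intro x; rfl
  | succ k ih =>
    intro x
    rw [pow_succ, Module.End.mul_apply, ih, Function.iterate_succ_apply]
    rfl

end EigAux

open EigAux in
theorem TaskEig_proof : TaskEig := by
  intro habs hadd A _ m e r h k s p y hp hpm hk hy hfs hpy hF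
  have : Fact p.Prime := ⟨hp⟩
  let Y : MM A p := ⟨y, hfs, hpy⟩
  have hcomm : ∀ x : MM A p, ((phi hadd p r h).toZModLinearMap p) (Sh A p x)
      = Sh A p (((phi hadd p r h).toZModLinearMap p) x) := by
    intro x
    refine Subtype.ext ?_
    have h1 := (hadd A r h 1).2.2.2.1 1 x.1
    simp only [Function.iterate_one] at h1
    exact h1
  obtain ⟨k', s', y', hk', hle, hne, heq⟩ := habs p (MM A p) (Sh A p)
    ((phi hadd p r h).toZModLinearMap p) hcomm (fun q x hq hx => torsionfree q x hq hx) m
    (fun i => bb p (e.symm i)) (span_top e) k s Y hk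
    (fun hc => hy (congrArg Subtype.val hc)) (by
      refine Subtype.ext ?_
      rw [phi_pow, Sh_zpow]
      exact hF)
  refine ⟨k', s', y'.1, hk', hle.trans ?_, ?_, y'.2.1, ?_⟩
  · exact Nat.mul_le_mul_left m (Nat.pow_le_pow_left hpm m)
  · intro hc
    exact hne (Subtype.ext hc)
  · have := congrArg Subtype.val heq
    rwa [phi_pow, Sh_zpow] at this

end Pool.Agent.Q325.SO
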