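import Pool.Agent.Q325.SO.Stmts

/-! From the orders of the roots of unity and the norm. -/

set_option autoImplicit false

namespace Pool.Agent.Q325.SO

open Polynomial

theorem TaskField_proof : TaskField := by
  intro hOrder hNorm p _ L _ _ _ n hn l k s hk hl
  obtain ⟨k₁, s₁, g, hg, hk₁, hk₁n, hζ⟩ := hNorm p L l k s hk hl
  obtain ⟨e, he, hen, hζe⟩ := hOrder p L _ g hg hζ
  have hp : 2 ≤ p := (Fact.out : p.Prime).two_le
  set x : L := algebraMap (RatFunc (ZMod p)) L RatFunc.X with hx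
  have hx0 : x ≠ 0 := by
    rw [hx, Ne, map_eq_zero]
    exact RatFunc.X_ne_zero
  set N : ℕ := p ^ e - 1 with hN
  have hpe : 2 ≤ p ^ e := le_trans hp (Nat.le_self_pow (by omega) p)
  have hN1 : 1 ≤ N := by omega
  refine ⟨k₁ * N, s₁ * N, Nat.mul_pos hk₁ hN1, ?_, ?_⟩
  · refine Nat.mul_le_mul (hk₁n.trans hn) ?_
    calc N ≤ p ^ e := Nat.sub_le _ _
      _ ≤ p ^ n := Nat.pow_le_pow_right (by omega) (hen.trans hn)
  · rw [mul_pow, ← pow_mul] at hζe
    have h1 : (x ^ (-s₁)) ^ N = (x ^ (s₁ * (N : ℤ)))⁻¹ := by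
      rw [← zpow_natCast, ← zpow_mul, ← zpow_neg]
      congr 1
      ring
    rw [h1] at hζe
    have h2 : x ^ (s₁ * (N : ℤ)) ≠ 0 := zpow_ne_zero _ hx0
    exact (mul_inv_eq_one₀ h2).1 hζe

end Pool.Agent.Q325.SO
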