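import Pool.Agent.Q325.SO.Stmts

set_option autoImplicit false

namespace Pool.Agent.Q325.SO

/-- cutting out the cells `p ≤ i < p + d` if the windows of length `2 R` at `p` and `p + d` agree -/
private theorem cut_zero {A : Type} [AddCommGroup A] (R : ℕ) (g : ℕ → A →+ A) (y : ℤ → A)
    (hF : F R g y = 0) (p : ℤ) (d : ℕ)
    (hw : ∀ t : ℕ, t < 2 * R → y (p + t) = y (p + d + t)) :
    F R g (fun i => if i < p then y i else y (i + d)) = 0 := by
  have h1 : ∀ i : ℤ, i < p + 2 * R → (if i < p then y i else y (i + d)) = y i := by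
    intro i hi
    by_cases hip : i < p
    · rw [if_pos hip]
    · rw [if_neg hip]
      push Not at hip
      obtain ⟨t, ht⟩ := Int.eq_ofNat_of_zero_le (sub_nonneg.2 hip)
      have e1 : i = p + t := by omega
      have e2 := hw t (by omega)
      have e3 : i + d = p + d + t := by omega
      rw [e3, ← e2, e1]
  funext i
  by_cases hi : i + R < p + 2 * R
  · have h2 : F R g (fun i => if i < p then y i else y (i + d)) i = F R g y i := by
      unfold F
      refine Finset.sum_congr rfl fun j hj => ?_
      rw [Finset.mem_range] at hj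
      congr 1
      exact h1 _ (by omega)
    rw [h2, hF]
  · have h2 : F R g (fun i => if i < p then y i else y (i + d)) i = F R g y (i + d) := by
      unfold F
      refine Finset.sum_congr rfl fun j hj => ?_
      rw [Finset.mem_range] at hj
      congr 1
      have : ¬ (i + j - R < p) := by omega
      simp only [this, if_false]
      congr 1
      ring
    rw [h2, hF]
    rfl

private theorem ker_aux {A : Type} [AddCommGroup A] (m : ℕ) (e : A ≃ Fin m) (R : ℕ)
    (g : ℕ → A →+ A) : ∀ (N : ℕ) (y : ℤ → A) (a : ℤ), y a ≠ 0 →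
    (∀ i, y i ≠ 0 → a ≤ i ∧ i ≤ a + N) → F R g y = 0 →
    ∃ y : ℤ → A, y ≠ 0 ∧ Bd (m ^ (2 * R + 1) + 2 * R + 2) y ∧ F R g y = 0 := by
  intro N
  induction N with
  | zero =>
    intro y a ha hsupp hF
    refine ⟨y, fun h => ha (by rw [h]; rfl), ?_, hF⟩
    intro i j hi hj
    have h1 := hsupp i hi
    have h2 := hsupp j hj
    push_cast at h1 h2 ⊢
    have : (0 : ℤ) ≤ (m : ℤ) ^ (2 * R + 1) := by positivity
    omega
  | succ N ih =>
    intro y a ha hsupp hF
    by_cases hN : N + 1 < m ^ (2 * R + 1) + 2 * R + 2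
    · refine ⟨y, fun h => ha (by rw [h]; rfl), ?_, hF⟩
      intro i j hi hj
      have h1 := hsupp i hi
      have h2 := hsupp j hj
      have h3 : ((N + 1 : ℕ) : ℤ) < ((m ^ (2 * R + 1) + 2 * R + 2 : ℕ) : ℤ) := by exact_mod_cast hN
      omega
    · push Not at hN
      letI : Fintype A := Fintype.ofEquiv _ e.symm
      have hA : Fintype.card A = m := by rw [Fintype.card_congr e, Fintype.card_fin]
      have hm : 1 ≤ m := by
        rw [← hA]
        exact Fintype.card_pos_iff.2 ⟨0⟩
      have hpow : m ^ (2 * R) ≤ m ^ (2 * R + 1) := Nat.pow_le_pow_right hm (by omega)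
      let f : Fin (m ^ (2 * R) + 1) → (Fin (2 * R) → A) := fun u t => y (a + 1 + (u : ℕ) + (t : ℕ))
      have hcard : Fintype.card (Fin (2 * R) → A) < Fintype.card (Fin (m ^ (2 * R) + 1)) := by
        rw [Fintype.card_fun, Fintype.card_fin, Fintype.card_fin, hA]
        omega
      obtain ⟨u, v, huv, hf⟩ := Fintype.exists_ne_map_eq_of_card_lt f hcard
      obtain ⟨u, v, huv, hf⟩ : ∃ u v : Fin (m ^ (2 * R) + 1), u < v ∧ f u = f v := by
        rcases lt_or_gt_of_ne huv with h | h
        · exact ⟨u, v, h, hf⟩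
        · exact ⟨v, u, h, hf.symm⟩
      have huv' : (u : ℕ) < (v : ℕ) := huv
      have hv' : (v : ℕ) < m ^ (2 * R) + 1 := v.2
      have hw : ∀ t : ℕ, t < 2 * R → y (a + 1 + (u : ℕ) + t) =
          y (a + 1 + (u : ℕ) + ((v : ℕ) - (u : ℕ) : ℕ) + t) := by
        intro t ht
        have h1 := congrFun hf ⟨t, ht⟩
        have h2 : y (a + 1 + (u : ℕ) + t) = y (a + 1 + (v : ℕ) + t) := h1
        rw [h2]
        congr 1
        omega
      have hc := cut_zero R g y hF (a + 1 + (u : ℕ)) ((v : ℕ) - (u : ℕ)) hw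
      refine ih (fun i => if i < a + 1 + (u : ℕ) then y i else y (i + ((v : ℕ) - (u : ℕ) : ℕ))) a
        ?_ ?_ hc
      · have : a < a + 1 + (u : ℕ) := by omega
        simp only [this, if_true]
        exact ha
      · intro i hi
        have hi' : (if i < a + 1 + (u : ℕ) then y i else y (i + ((v : ℕ) - (u : ℕ) : ℕ))) ≠ 0 := hi
        by_cases hip : i < a + 1 + (u : ℕ)
        · rw [if_pos hip] at hi'
          have h1 := hsupp i hi'
          omega
        · rw [if_neg hip] at hi'
          have h1 := hsupp _ hi'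
          push_cast at h1
          omega

theorem TaskKer_proof : TaskKer := by
  intro A _ m e R g hy
  obtain ⟨y, hy0, hfs0, hF⟩ := hy
  have hfs : {i | y i ≠ 0}.Finite := hfs0
  obtain ⟨c, hc⟩ := Function.ne_iff.1 hy0
  have hne : hfs.toFinset.Nonempty := ⟨c, by simpa using hc⟩
  have hmin := hfs.toFinset.min'_mem hne
  refine ker_aux m e R g (hfs.toFinset.max' hne - hfs.toFinset.min' hne).toNat y
    (hfs.toFinset.min' hne) (by simpa using hmin) ?_ hF
  intro i hi
  have hi' : i ∈ hfs.toFinset := by simpa using hi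
  have h1 := hfs.toFinset.min'_le i hi'
  have h2 := hfs.toFinset.le_max' i hi'
  omega

end Pool.Agent.Q325.SO
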