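import Pool.Agent.Q325.SO.Stmts

set_option autoImplicit false

namespace Pool.Agent.Q325.SO

open Polynomial

/-- the polynomials that annihilate a nonzero vector `y` form a proper ideal; an irreducible factor `q`
of its generator annihilates a nonzero vector `y'` and divides every polynomial annihilating `y` -/
private theorem exists_factor {K V : Type} [Field K] [AddCommGroup V] [Module K V]
    [FiniteDimensional K V] (φ : V →ₗ[K] V) (y : V) (hy : y ≠ 0) (P : K[X])
    (hP : aeval φ P y = 0) :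
    ∃ (q : K[X]) (y' : V), Irreducible q ∧ q ∣ P ∧ q.natDegree ≤ Module.finrank K V ∧ y' ≠ 0 ∧
      aeval φ q y' = 0 := by
  let I : Ideal K[X] :=
    { carrier := {P | aeval φ P y = 0}
      add_mem' := by
        intro a b ha hb
        simp only [Set.mem_setOf_eq, map_add, LinearMap.add_apply] at *
        rw [ha, hb, add_zero]
      zero_mem' := by simp
      smul_mem' := by
        intro c x hx
        simp only [Set.mem_setOf_eq, smul_eq_mul, map_mul, Module.End.mul_apply] at *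
        rw [hx, map_zero] }
  have hI : ∀ P, P ∈ I ↔ aeval φ P y = 0 := fun P => Iff.rfl
  obtain ⟨μ, hμ⟩ : ∃ μ : K[X], ∀ P, aeval φ P y = 0 ↔ μ ∣ P :=
    ⟨Submodule.IsPrincipal.generator I, fun P =>
      (hI P).symm.trans (Submodule.IsPrincipal.mem_iff_generator_dvd I)⟩
  have hnu : ¬ IsUnit μ := by
    intro hu
    apply hy
    have := (hμ 1).2 hu.dvd
    simpa using this
  have hmin : μ ∣ minpoly K φ := (hμ _).1 (by rw [minpoly.aeval]; rfl)
  have hmin0 : minpoly K φ ≠ 0 := minpoly.ne_zero (Algebra.IsIntegral.isIntegral φ)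
  have hμ0 : μ ≠ 0 := ne_zero_of_dvd_ne_zero hmin0 hmin
  obtain ⟨q, hq, u, hu⟩ := WfDvdMonoid.exists_irreducible_factor hnu hμ0
  have hqμ : q ∣ μ := ⟨u, hu⟩
  refine ⟨q, aeval φ u y, hq, hqμ.trans ((hμ P).1 hP), ?_, ?_, ?_⟩
  · have h1 : q ∣ φ.charpoly := (hqμ.trans hmin).trans (LinearMap.minpoly_dvd_charpoly φ)
    have h2 := Polynomial.natDegree_le_of_dvd h1 (LinearMap.charpoly_monic φ).ne_zero
    rwa [LinearMap.charpoly_natDegree] at h2
  · intro h0
    have h1 := (hμ u).1 h0
    have hu0 : u ≠ 0 := by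
      rintro rfl
      apply hμ0
      rw [hu, mul_zero]
    obtain ⟨v, hv⟩ := h1
    rw [hu] at hv
    -- u = q u v
    apply hq.not_isUnit
    have h3 : u * (q * v) = u * 1 := by
      rw [mul_one]
      calc u * (q * v) = q * u * v := by ring
        _ = u := hv.symm
    exact IsUnit.of_mul_eq_one v (mul_left_cancel₀ hu0 h3)
  · have h1 : aeval φ (q * u) y = 0 := (hμ _).2 (by rw [← hu])
    rwa [map_mul, Module.End.mul_apply] at h1

theorem TaskLA_proof : TaskLA := by
  intro hF p _ V _ _ _ n hn φ k s y hk hy hφ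
  set x : RatFunc (ZMod p) := RatFunc.X with hx
  have hP : aeval φ ((X : (RatFunc (ZMod p))[X]) ^ k - C (x ^ s)) y = 0 := by
    rw [map_sub, map_pow, aeval_X, aeval_C, LinearMap.sub_apply, hφ,
      Module.algebraMap_end_apply, sub_self]
  obtain ⟨q, y', hq, hqP, hdeg, hy', hqy⟩ := exists_factor φ y hy _ hP
  haveI : Fact (Irreducible q) := ⟨hq⟩
  haveI : FiniteDimensional (RatFunc (ZMod p)) (AdjoinRoot q) :=
    (AdjoinRoot.powerBasis hq.ne_zero).finite
  have hfin : Module.finrank (RatFunc (ZMod p)) (AdjoinRoot q) ≤ n := by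
    rw [(AdjoinRoot.powerBasis hq.ne_zero).finrank, AdjoinRoot.powerBasis_dim]
    exact hdeg.trans hn
  have key : ∀ (j : ℕ) (t : ℤ), (AdjoinRoot.root q) ^ j =
      (algebraMap (RatFunc (ZMod p)) (AdjoinRoot q) x) ^ t ↔
      q ∣ (X : (RatFunc (ZMod p))[X]) ^ j - C (x ^ t) := by
    intro j t
    rw [← AdjoinRoot.mk_eq_zero, map_sub, map_pow, AdjoinRoot.mk_X, AdjoinRoot.mk_C, sub_eq_zero,
      ← map_zpow₀]
    rfl
  obtain ⟨k', s', hk', hk'', h1⟩ := hF p (AdjoinRoot q) n hfin (AdjoinRoot.root q) k s hk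
    ((key k s).2 hqP)
  refine ⟨k', s', y', hk', hk'', hy', ?_⟩
  obtain ⟨v, hv⟩ := (key k' s').1 h1
  have h2 : aeval φ ((X : (RatFunc (ZMod p))[X]) ^ k' - C (x ^ s')) y' = 0 := by
    rw [hv, mul_comm, map_mul, Module.End.mul_apply, hqy, map_zero]
  rw [map_sub, map_pow, aeval_X, aeval_C, LinearMap.sub_apply, Module.algebraMap_end_apply,
    sub_eq_zero] at h2
  exact h2

end Pool.Agent.Q325.SO
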