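import Pool.Agent.Q325.SO.Stmts

set_option autoImplicit false

namespace Pool.Agent.Q325.SO

/-- There is a soliton iff there is a nonzero configuration whose iterates have supports of
bounded diameter. -/
theorem TaskLin_proof : TaskLin := by
  intro hAdd A _ r h
  constructor
  · rintro ⟨x, y, hxy, _, D, hD⟩
    have key : ∀ t i, (F r h)^[t] (x + -y) i = (F r h)^[t] x i - (F r h)^[t] y i := by
      intro t i
      obtain ⟨h1, h2, _⟩ := hAdd A r h t
      rw [h1, h2]
      simp [sub_eq_add_neg]
    refine ⟨D.toNat + 1, x + -y, ?_, ?_⟩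
    · intro h0
      exact hxy (by rw [← sub_eq_zero, sub_eq_add_neg]; exact h0)
    · intro t i j hi hj
      rw [key, sub_ne_zero] at hi hj
      have h1 := hD t i hi j hj
      have h2 := Int.self_le_toNat D
      push_cast
      omega
  · rintro ⟨D, x, hx, hD⟩
    have h0 : ∀ t, (F r h)^[t] (0 : ℤ → A) = 0 := fun t => (hAdd A r h t).2.2.1
    obtain ⟨i0, hi0⟩ := Function.ne_iff.1 hx
    refine ⟨x, 0, hx, ?_, D, ?_⟩
    · refine (Set.finite_Icc (i0 - D) (i0 + D)).subset ?_
      intro i hi
      have h1 := hD 0 i i0 hi hi0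
      have h2 := hD 0 i0 i hi0 hi
      exact Set.mem_Icc.2 ⟨by omega, by omega⟩
    · intro t i hi j hj
      rw [h0 t] at hi hj
      have h1 := hD t i j hi hj
      omega

end Pool.Agent.Q325.SO
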