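import Pool.Agent.Q325.SO.Stmts

set_option autoImplicit false

namespace Pool.Agent.Q325.SO

open Polynomial

private theorem deg_pow {K : Type} [Field K] {x : RatFunc K} (hx : x ≠ 0) (n : ℕ) :
    (x ^ n).intDegree = n * x.intDegree := by
  induction n with
  | zero => simp
  | succ n ih =>
    rw [pow_succ, RatFunc.intDegree_mul (pow_ne_zero _ hx) hx, ih]
    push_cast
    ring

private theorem deg_zpow {K : Type} [Field K] (s : ℤ) :
    ((RatFunc.X : RatFunc K) ^ s).intDegree = s := by
  have hX : (RatFunc.X : RatFunc K) ≠ 0 := RatFunc.X_ne_zero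
  obtain ⟨a, rfl | rfl⟩ := s.eq_nat_or_neg
  · rw [zpow_natCast, deg_pow hX, RatFunc.intDegree_X, mul_one]
  · have h1 := RatFunc.intDegree_mul (pow_ne_zero a hX) (inv_ne_zero (pow_ne_zero a hX))
    rw [mul_inv_cancel₀ (pow_ne_zero a hX), RatFunc.intDegree_one, deg_pow hX,
      RatFunc.intDegree_X, mul_one] at h1
    rw [zpow_neg, zpow_natCast]
    linarith

theorem TaskNorm_proof : TaskNorm := by
  intro p _ L _ _ _ l k s hk h
  have hX : (RatFunc.X : RatFunc (ZMod p)) ≠ 0 := RatFunc.X_ne_zero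
  set n := Module.finrank (RatFunc (ZMod p)) L with hn
  have hn0 : 0 < n := Module.finrank_pos
  -- the norm
  have hN : (Algebra.norm (RatFunc (ZMod p)) l) ^ k = ((RatFunc.X : RatFunc (ZMod p)) ^ s) ^ n := by
    rw [← map_pow, h, ← map_zpow₀, Algebra.norm_algebraMap]
  have hN0 : Algebra.norm (RatFunc (ZMod p)) l ≠ 0 := by
    intro h0
    rw [h0, zero_pow (by omega)] at hN
    exact pow_ne_zero n (zpow_ne_zero s hX) hN.symm
  have hdeg : (k : ℤ) * (Algebra.norm (RatFunc (ZMod p)) l).intDegree = n * s := by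
    have := congrArg RatFunc.intDegree hN
    rw [deg_pow hN0, deg_pow (zpow_ne_zero s hX), deg_zpow] at this
    exact this
  have hg : 0 < Int.gcd (k : ℤ) s := Int.gcd_pos_of_ne_zero_left _ (by omega)
  obtain ⟨a, b, hab, hka, hsb⟩ := Int.exists_gcd_one hg
  set g := Int.gcd (k : ℤ) s with hgdef
  have hg' : (0 : ℤ) < g := by exact_mod_cast hg
  have ha : 0 < a := by
    by_contra hcon
    push Not at hcon
    have : (k : ℤ) ≤ 0 := by
      rw [hka]
      exact mul_nonpos_of_nonpos_of_nonneg hcon hg'.le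
    omega
  have hdvd : a ∣ (n : ℤ) := by
    have hco : IsCoprime a b := Int.isCoprime_iff_gcd_eq_one.2 hab
    refine hco.dvd_of_dvd_mul_right ⟨(Algebra.norm (RatFunc (ZMod p)) l).intDegree, ?_⟩
    have h1 : (g : ℤ) * (a * (Algebra.norm (RatFunc (ZMod p)) l).intDegree) =
        g * ((n : ℤ) * b) := by
      calc (g : ℤ) * (a * (Algebra.norm (RatFunc (ZMod p)) l).intDegree)
          = (a * g) * (Algebra.norm (RatFunc (ZMod p)) l).intDegree := by ring
        _ = k * (Algebra.norm (RatFunc (ZMod p)) l).intDegree := by rw [← hka]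
        _ = n * s := hdeg
        _ = n * (b * g) := by rw [← hsb]
        _ = _ := by ring
    exact (mul_left_cancel₀ hg'.ne' h1).symm
  have hle : a ≤ n := Int.le_of_dvd (by exact_mod_cast hn0) hdvd
  have hX' : algebraMap (RatFunc (ZMod p)) L RatFunc.X ≠ 0 := by
    rw [Ne, map_eq_zero]
    exact hX
  refine ⟨a.toNat, b, g, hg, by omega, by omega, ?_⟩
  rw [mul_pow, ← pow_mul, ← zpow_natCast (algebraMap (RatFunc (ZMod p)) L RatFunc.X ^ (-b)),
    ← zpow_mul]
  have h2 : a.toNat * g = k := by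
    have : ((a.toNat * g : ℕ) : ℤ) = k := by
      push_cast
      rw [Int.toNat_of_nonneg ha.le, ← hka]
    exact_mod_cast this
  rw [h2, h, neg_mul, ← hsb, ← zpow_add₀ hX', add_neg_cancel, zpow_zero]

end Pool.Agent.Q325.SO
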