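import Pool.Agent.Q325.SO.Stmts

set_option autoImplicit false

namespace Pool.Agent.Q325.SO

private theorem orbit_fs_of_bd {A : Type} [AddCommGroup A] {D : ℕ} {y : ℤ → A} (h : Bd D y) : Fs y := by
  unfold Fs
  by_cases h0 : ∃ i, y i ≠ 0
  · obtain ⟨i, hi⟩ := h0
    refine (Set.finite_Icc (i - D) (i + D)).subset ?_
    intro j hj
    have hj' : y j ≠ 0 := hj
    have h1 := h i j hi hj'
    have h2 := h j i hj' hi
    rw [Set.mem_Icc]
    omega
  · push Not at h0
    have : {i | y i ≠ 0} = ∅ := by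
      ext i
      simp [h0 i]
    rw [this]
    exact Set.finite_empty

private theorem orbit_cf_sh {A : Type} [AddCommGroup A] {m : ℕ} (e : A ≃ Fin m) (s₁ s₂ : ℤ) (w : List ℕ) :
    cf e s₂ w = sh (s₁ - s₂) (cf e s₁ w) := by
  funext i
  unfold sh cf
  have h1 : i + (s₁ - s₂) - s₁ = i - s₂ := by ring
  rw [h1]
  by_cases h : s₂ ≤ i
  · rw [if_pos h, if_pos (by omega)]
  · rw [if_neg h, if_neg (by omega)]

private theorem orbit_pigeon {D m : ℕ} (w : ℕ → List ℕ) (hl : ∀ t, (w t).length = D)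
    (hm : ∀ t, ∀ a ∈ w t, a < m) : ∃ t₁ t₂, t₁ < t₂ ∧ w t₁ = w t₂ := by
  have hlt : ∀ t (i : Fin D), (w t)[i.val]'(by rw [hl]; exact i.isLt) < m :=
    fun t i => hm t _ (List.getElem_mem _)
  obtain ⟨a, b, hab, hf⟩ := Finite.exists_ne_map_eq_of_infinite
    (fun t : ℕ => fun i : Fin D => (⟨(w t)[i.val]'(by rw [hl]; exact i.isLt), hlt t i⟩ : Fin m))
  have heq : w a = w b := by
    refine List.ext_getElem (by rw [hl, hl]) ?_
    intro i h1 h2
    have hi : i < D := by rw [hl] at h1; exact h1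
    have := congrFun hf ⟨i, hi⟩
    exact congrArg Fin.val this
  rcases lt_or_gt_of_ne hab with h | h
  · exact ⟨a, b, h, heq⟩
  · exact ⟨b, a, h, heq.symm⟩

theorem TaskOrbit_proof : TaskOrbit := by
  intro hAdd hWord A _ m e r h D hSol
  obtain ⟨x, hx0, hx⟩ := hSol
  by_cases hz : ∃ t, (F r h)^[t] x = 0
  · left
    classical
    have hspec := Nat.find_spec hz
    have hmin := fun k => Nat.find_min (m := k) hz
    have h1 : Nat.find hz ≠ 0 := by
      intro h0
      rw [h0] at hspec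
      exact hx0 hspec
    obtain ⟨k, hk⟩ := Nat.exists_eq_succ_of_ne_zero h1
    refine ⟨(F r h)^[k] x, hmin k (by omega), orbit_fs_of_bd (hx k), ?_⟩
    rw [hk, Function.iterate_succ_apply'] at hspec
    exact hspec
  · right
    push Not at hz
    choose s w hl hm hc _ using fun t => hWord A m e D ((F r h)^[t] x) (hz t) (hx t)
    obtain ⟨t₁, t₂, hlt, hw⟩ := orbit_pigeon w hl hm
    refine ⟨t₂ - t₁, s t₁ - s t₂, (F r h)^[t₁] x, by omega, hz t₁, orbit_fs_of_bd (hx t₁), ?_⟩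
    rw [← Function.iterate_add_apply, Nat.sub_add_cancel hlt.le, hc t₁, hc t₂, hw]
    exact orbit_cf_sh e _ _ _

end Pool.Agent.Q325.SO
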