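import Pool.Agent.Q325.SO.Stmts

set_option autoImplicit false

namespace Pool.Agent.Q325.SO

open Polynomial

theorem TaskOrder_proof : TaskOrder := by
  intro p _ L _ _ _ ζ g hg hζ
  let i1 : Algebra (ZMod p)[X] L :=
    ((algebraMap (RatFunc (ZMod p)) L).comp (algebraMap (ZMod p)[X] (RatFunc (ZMod p)))).toAlgebra
  have i2 : IsScalarTower (ZMod p)[X] (RatFunc (ZMod p)) L := IsScalarTower.of_algebraMap_eq (fun _ => rfl)
  let i3 : Algebra (ZMod p) L :=
    ((algebraMap (ZMod p)[X] L).comp (algebraMap (ZMod p) (ZMod p)[X])).toAlgebra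
  have i4 : IsScalarTower (ZMod p) (ZMod p)[X] L := IsScalarTower.of_algebraMap_eq (fun _ => rfl)
  have hinj : Function.Injective (algebraMap (ZMod p)[X] L) :=
    (algebraMap (RatFunc (ZMod p)) L).injective.comp (IsFractionRing.injective (ZMod p)[X] (RatFunc (ZMod p)))
  have i5 : Module.IsTorsionFree (ZMod p)[X] L := Module.isTorsionFree_iff_algebraMap_injective.2 hinj
  have hmonic : (X ^ g - 1 : (ZMod p)[X][X]).Monic := by
    have := monic_X_pow_sub_C (1 : (ZMod p)[X]) (show g ≠ 0 by omega)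
    rwa [C_1] at this
  have hev : aeval ζ (X ^ g - 1 : (ZMod p)[X][X]) = 0 := by simp [hζ]
  have hint : IsIntegral (ZMod p)[X] ζ := ⟨X ^ g - 1, hmonic, by simpa [aeval_def] using hev⟩
  have hmin : minpoly (RatFunc (ZMod p)) ζ = (minpoly (ZMod p)[X] ζ).map (algebraMap _ _) :=
    minpoly.isIntegrallyClosed_eq_field_fractions' (RatFunc (ZMod p)) hint
  have hdeg : (minpoly (ZMod p)[X] ζ).natDegree ≤ Module.finrank (RatFunc (ZMod p)) L := by
    have h1 := minpoly.natDegree_le (A := RatFunc (ZMod p)) ζ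
    rwa [hmin, (minpoly.monic hint).natDegree_map] at h1
  obtain ⟨Q, hQ⟩ := minpoly.isIntegrallyClosed_dvd hint hev
  have hne : (X ^ g - 1 : (ZMod p)[X][X]) ≠ 0 := hmonic.ne_zero
  have hsw : Polynomial.Bivariate.swap (R := ZMod p) (X ^ g - 1 : (ZMod p)[X][X]) = C (X ^ g - 1) := by
    rw [map_sub, map_pow, map_one, Polynomial.Bivariate.swap_Y, C_sub, C_pow, C_1]
  have hPQ : Polynomial.Bivariate.swap (R := ZMod p) (minpoly (ZMod p)[X] ζ) *
      Polynomial.Bivariate.swap (R := ZMod p) Q = C (X ^ g - 1) := by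
    rw [← map_mul, ← hQ, hsw]
  have hX : (X ^ g - 1 : (ZMod p)[X]) ≠ 0 := by
    have := (monic_X_pow_sub_C (1 : ZMod p) (show g ≠ 0 by omega)).ne_zero
    rwa [C_1] at this
  have h0 : (C (X ^ g - 1 : (ZMod p)[X]) : (ZMod p)[X][X]) ≠ 0 := by
    rw [Ne, C_eq_zero]
    exact hX
  have hd0 : (Polynomial.Bivariate.swap (R := ZMod p) (minpoly (ZMod p)[X] ζ)).natDegree = 0 := by
    have h1 : Polynomial.Bivariate.swap (R := ZMod p) (minpoly (ZMod p)[X] ζ) ≠ 0 := left_ne_zero_of_mul (hPQ ▸ h0)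
    have h2 : Polynomial.Bivariate.swap (R := ZMod p) Q ≠ 0 := right_ne_zero_of_mul (hPQ ▸ h0)
    have h3 := natDegree_mul h1 h2
    rw [hPQ, natDegree_C] at h3
    omega
  obtain ⟨R, hR⟩ := natDegree_eq_zero.1 hd0
  have hP : minpoly (ZMod p)[X] ζ = R.map C := by
    have h1 : Polynomial.Bivariate.swap (R := ZMod p) (C R) = minpoly (ZMod p)[X] ζ := by
      rw [hR]
      exact Polynomial.Bivariate.swap_swap_apply _
    rw [← h1, Polynomial.Bivariate.swap_C]
  have hRm : R.natDegree = (minpoly (ZMod p)[X] ζ).natDegree := by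
    rw [hP, natDegree_map_eq_of_injective (C_injective)]
  have hR0 : R ≠ 0 := by
    rintro rfl
    rw [Polynomial.map_zero] at hP
    exact (minpoly.ne_zero hint) hP
  have hRζ : aeval ζ R = 0 := by
    have h1 := minpoly.aeval (ZMod p)[X] ζ
    rw [hP] at h1
    have h2 : aeval ζ (R.map (algebraMap (ZMod p) (ZMod p)[X])) = aeval ζ R := aeval_map_algebraMap _ _ _
    rw [← h2]
    exact h1
  have hint2 : IsIntegral (ZMod p) ζ := (isAlgebraic_iff_isIntegral (K := ZMod p)).1 ⟨R, hR0, hRζ⟩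
  have hζ0 : ζ ≠ 0 := by
    rintro rfl
    rw [zero_pow (by omega)] at hζ
    exact zero_ne_one hζ
  refine ⟨(minpoly (ZMod p) ζ).natDegree, minpoly.natDegree_pos hint2, ?_, ?_⟩
  · refine le_trans ?_ hdeg
    rw [← hRm]
    exact natDegree_le_of_dvd (minpoly.dvd _ _ hRζ) hR0
  · set K := IntermediateField.adjoin (ZMod p) {ζ} with hK
    have hfd : FiniteDimensional (ZMod p) K := IntermediateField.adjoin.finiteDimensional hint2
    have hfin : Finite K := Module.finite_of_finite (ZMod p)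
    let _ : Fintype K := Fintype.ofFinite K
    have hcard : Fintype.card K = p ^ (minpoly (ZMod p) ζ).natDegree := by
      rw [Module.card_eq_pow_finrank (K := ZMod p) (V := K), ZMod.card, IntermediateField.adjoin.finrank hint2]
    have hmem : ζ ∈ K := IntermediateField.mem_adjoin_simple_self (ZMod p) ζ
    have h1 := FiniteField.pow_card_sub_one_eq_one (⟨ζ, hmem⟩ : K) (by
      intro h
      exact hζ0 (congrArg Subtype.val h))
    rw [hcard] at h1
    have h2 := congrArg Subtype.val h1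
    simpa using h2

end Pool.Agent.Q325.SO
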