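import Pool.Agent.Q325.SO.Stmts

/-! # Proof of `TaskPBd` -/

set_option autoImplicit false

namespace Pool.Agent.Q325.SO

private theorem getD_prim' : Primrec (fun p : (List ℕ × ℕ) × ℕ => p.1.1.getD p.1.2 p.2) := by
  refine (Primrec.option_getD.comp (Primrec.list_getElem?.comp (Primrec.fst.comp Primrec.fst)
    (Primrec.snd.comp Primrec.fst)) Primrec.snd).of_eq ?_
  intro p
  rw [List.getD_eq_getElem?_getD]

private theorem forall_lt' {β : Type} [Primcodable β] {R : ℕ → β → Prop} (hf : PrimrecRel R)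
    {f : β → ℕ} (hfn : Primrec f) : PrimrecPred (fun b => ∀ x < f b, R x b) := by
  refine (hf.forall_mem_list.comp (Primrec.list_range.comp hfn) Primrec.id).of_eq ?_
  intro b
  constructor
  · intro h x hx
    exact h x (List.mem_range.2 hx)
  · intro h x hx
    exact h x (List.mem_range.1 hx)

private theorem prop_key' (a b c : Prop) : (a ∨ b ∨ c) ↔ (¬ a → ¬ b → c) := by
  by_cases ha : a
  · exact ⟨fun _ h => absurd ha h, fun _ => Or.inl ha⟩
  · by_cases hb : b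
    · exact ⟨fun _ _ h => absurd hb h, fun _ => Or.inr (Or.inl hb)⟩
    · exact ⟨fun h _ _ => h.elim (fun x => absurd x ha) (fun h => h.elim (fun x => absurd x hb) id),
        fun h => Or.inr (Or.inr (h ha hb))⟩

theorem TaskPBd_proof : TaskPBd := by
  unfold TaskPBd
  -- the innermost relation
  have hD : Primrec (fun p : ℕ × (ℕ × ((ℕ × ℕ) × List ℕ)) => p.2.2.1.1) :=
    Primrec.fst.comp (Primrec.fst.comp (Primrec.snd.comp Primrec.snd))
  have hz : Primrec (fun p : ℕ × (ℕ × ((ℕ × ℕ) × List ℕ)) => p.2.2.1.2) :=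
    Primrec.snd.comp (Primrec.fst.comp (Primrec.snd.comp Primrec.snd))
  have hw : Primrec (fun p : ℕ × (ℕ × ((ℕ × ℕ) × List ℕ)) => p.2.2.2) :=
    Primrec.snd.comp (Primrec.snd.comp Primrec.snd)
  have hi : Primrec (fun p : ℕ × (ℕ × ((ℕ × ℕ) × List ℕ)) => p.2.1) :=
    Primrec.fst.comp Primrec.snd
  have hj : Primrec (fun p : ℕ × (ℕ × ((ℕ × ℕ) × List ℕ)) => p.1) := Primrec.fst
  have h1 : PrimrecPred (fun p : ℕ × (ℕ × ((ℕ × ℕ) × List ℕ)) =>
      p.2.2.2.getD p.2.1 p.2.2.1.2 = p.2.2.1.2) :=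
    Primrec.eq.comp (getD_prim'.comp (Primrec.pair (Primrec.pair hw hi) hz)) hz
  have h2 : PrimrecPred (fun p : ℕ × (ℕ × ((ℕ × ℕ) × List ℕ)) =>
      p.2.2.2.getD p.1 p.2.2.1.2 = p.2.2.1.2) :=
    Primrec.eq.comp (getD_prim'.comp (Primrec.pair (Primrec.pair hw hj) hz)) hz
  have h3 : PrimrecPred (fun p : ℕ × (ℕ × ((ℕ × ℕ) × List ℕ)) => p.1 < p.2.1 + p.2.2.1.1) :=
    Primrec.nat_lt.comp hj (Primrec.nat_add.comp hi hD)
  have h4 : PrimrecRel (fun (j : ℕ) (p : ℕ × ((ℕ × ℕ) × List ℕ)) =>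
      p.2.2.getD p.1 p.2.1.2 ≠ p.2.1.2 → p.2.2.getD j p.2.1.2 ≠ p.2.1.2 → j < p.1 + p.2.1.1) := by
    refine PrimrecPred.of_eq (h1.or (h2.or h3)) ?_
    intro p
    exact prop_key' _ _ _
  have h6 : PrimrecRel (fun (i : ℕ) (q : (ℕ × ℕ) × List ℕ) => ∀ j < q.2.length,
      q.2.getD i q.1.2 ≠ q.1.2 → q.2.getD j q.1.2 ≠ q.1.2 → j < i + q.1.1) :=
    forall_lt' h4 (f := fun p : ℕ × ((ℕ × ℕ) × List ℕ) => p.2.2.length)
      (Primrec.list_length.comp (Primrec.snd.comp Primrec.snd))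
  exact forall_lt' h6 (f := fun q : (ℕ × ℕ) × List ℕ => q.2.length)
    (Primrec.list_length.comp Primrec.snd)

end Pool.Agent.Q325.SO
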