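import Mathlib
import Pool.Agent.Q325.SO.Stmts

set_option autoImplicit false

namespace Pool.Agent.Q325.SO

private theorem pd0_pow : Primrec₂ ((· ^ ·) : ℕ → ℕ → ℕ) :=
  Primrec₂.unpaired'.1 Nat.Primrec.pow

private theorem pd0_KK : Primrec KK := by
  unfold KK
  exact Primrec.nat_mul.comp Primrec.id (pd0_pow.comp Primrec.id Primrec.id)

theorem TaskPD0_proof : TaskPD0 := by
  unfold TaskPD0 D0
  have h1 : Primrec (fun q : ℕ × ℕ => q.2 * KK q.1) :=
    Primrec.nat_mul.comp Primrec.snd (pd0_KK.comp Primrec.fst)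
  have h2 : Primrec (fun q : ℕ × ℕ => 2 * (q.2 * KK q.1) + 1) :=
    Primrec.succ.comp (Primrec.nat_mul.comp (Primrec.const 2) h1)
  have h3 : Primrec (fun q : ℕ × ℕ => 4 * (q.2 * KK q.1)) :=
    Primrec.nat_mul.comp (Primrec.const 4) h1
  have h4 : Primrec (fun q : ℕ × ℕ => q.1 ^ (2 * (q.2 * KK q.1) + 1)) :=
    pd0_pow.comp Primrec.fst h2
  exact Primrec.nat_add.comp (Primrec.nat_add.comp h4 h3) (Primrec.const 2)

end Pool.Agent.Q325.SO
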