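import Pool.Agent.Q325.SO.Stmts

/-! # `TaskPSearch` -/

set_option autoImplicit false

namespace Pool.Agent.Q325.SO

open Primrec

theorem TaskPSearch_proof : TaskPSearch := by
  intro hstep hwords hzero hD0 hBd
  -- the parameters as functions of `p`
  have hz : Primrec (fun p : List (List ℕ) × List (List ℕ) => zeroIdx p.1) :=
    Primrec.comp hzero Primrec.fst
  have hm : Primrec (fun p : List (List ℕ) × List (List ℕ) => p.1.length) :=
    Primrec.list_length.comp Primrec.fst
  have hr : Primrec (fun p : List (List ℕ) × List (List ℕ) => (p.2.length - 1) / 2) :=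
    Primrec.nat_div.comp (Primrec.nat_sub.comp (Primrec.list_length.comp Primrec.snd)
      (Primrec.const 1)) (Primrec.const 2)
  have hD : Primrec (fun p : List (List ℕ) × List (List ℕ) =>
      D0 p.1.length ((p.2.length - 1) / 2)) :=
    Primrec.comp (f := fun q : ℕ × ℕ => D0 q.1 q.2) hD0 (Primrec.pair hm hr)
  have hpow' : Primrec (fun q : ℕ × ℕ => q.1 ^ q.2) := by
    refine (Primrec.nat_rec' (f := fun q : ℕ × ℕ => q.2) (g := fun _ => 1)
      (h := fun q s => s.2 * q.1) Primrec.snd (Primrec.const 1)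
      (Primrec.nat_mul.comp (Primrec.snd.comp Primrec.snd)
        (Primrec.fst.comp Primrec.fst)).to₂).of_eq ?_
    rintro ⟨a, b⟩
    induction b with
    | zero => rfl
    | succ b ih =>
      change _ * a = a ^ (b + 1)
      rw [pow_succ, ← ih]
  have hpow : Primrec₂ (fun a b : ℕ => a ^ b) := hpow'
  have hN : Primrec (fun p : List (List ℕ) × List (List ℕ) =>
      p.1.length ^ D0 p.1.length ((p.2.length - 1) / 2) + 2) :=
    Primrec.nat_add.comp (hpow.comp hm hD) (Primrec.const 2)
  have hW : Primrec (fun p : List (List ℕ) × List (List ℕ) =>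
      words p.1.length (D0 p.1.length ((p.2.length - 1) / 2))) :=
    Primrec.comp hwords (Primrec.pair hm hD)
  -- the first condition
  have hget : Primrec (fun q : ℕ × (List ℕ × (List (List ℕ) × List (List ℕ))) =>
      q.2.1.getD q.1 (zeroIdx q.2.2.1)) := by
    have h1 : Primrec (fun q : ℕ × (List ℕ × (List (List ℕ) × List (List ℕ))) =>
        (q.2.1[q.1]?).getD (zeroIdx q.2.2.1)) :=
      Primrec.option_getD.comp (Primrec.list_getElem?.comp (Primrec.fst.comp Primrec.snd)
        Primrec.fst) (hz.comp (Primrec.snd.comp Primrec.snd))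
    exact h1.of_eq fun q => (List.getD_eq_getElem?_getD).symm
  have hS1 : PrimrecRel (fun (i : ℕ) (q : List ℕ × (List (List ℕ) × List (List ℕ))) =>
      q.1.getD i (zeroIdx q.2.1) ≠ zeroIdx q.2.1) :=
    PrimrecPred.not (Primrec.eq.comp hget (hz.comp (Primrec.snd.comp Primrec.snd)))
  have hC1 : PrimrecPred (fun q : List ℕ × (List (List ℕ) × List (List ℕ)) =>
      ∃ i < q.1.length, q.1.getD i (zeroIdx q.2.1) ≠ zeroIdx q.2.1) := by
    refine (hS1.exists_mem_list.comp (Primrec.list_range.comp
      (Primrec.list_length.comp Primrec.fst)) Primrec.id).of_eq fun q => ?_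
    simp only [List.mem_range, id]
  -- the second condition
  have hS2 : PrimrecRel (fun (t : ℕ) (q : List ℕ × (List (List ℕ) × List (List ℕ))) =>
      BdL (D0 q.2.1.length ((q.2.2.length - 1) / 2)) (zeroIdx q.2.1)
        ((stepL (zeroIdx q.2.1) q.2.1 q.2.2)^[t] q.1)) := by
    have h1 : Primrec (fun q : ℕ × (List ℕ × (List (List ℕ) × List (List ℕ))) =>
        (stepL (zeroIdx q.2.2.1) q.2.2.1 q.2.2.2)^[q.1] q.2.1) :=
      Primrec.comp (f := fun q : ((ℕ × (List (List ℕ) × List (List ℕ))) × List ℕ) × ℕ =>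
        (stepL q.1.1.1 q.1.1.2.1 q.1.1.2.2)^[q.2] q.1.2) hstep
        (Primrec.pair (Primrec.pair (Primrec.pair (hz.comp (Primrec.snd.comp Primrec.snd))
          (Primrec.snd.comp Primrec.snd)) (Primrec.fst.comp Primrec.snd)) Primrec.fst)
    exact PrimrecPred.comp (p := fun q : (ℕ × ℕ) × List ℕ => BdL q.1.1 q.1.2 q.2) hBd
      (Primrec.pair (Primrec.pair (hD.comp (Primrec.snd.comp Primrec.snd))
        (hz.comp (Primrec.snd.comp Primrec.snd))) h1)
  have hC2 : PrimrecPred (fun q : List ℕ × (List (List ℕ) × List (List ℕ)) =>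
      ∀ t < q.2.1.length ^ D0 q.2.1.length ((q.2.2.length - 1) / 2) + 2,
        BdL (D0 q.2.1.length ((q.2.2.length - 1) / 2)) (zeroIdx q.2.1)
          ((stepL (zeroIdx q.2.1) q.2.1 q.2.2)^[t] q.1)) := by
    refine (hS2.forall_mem_list.comp (Primrec.list_range.comp
      (hN.comp Primrec.snd)) Primrec.id).of_eq fun q => ?_
    simp only [List.mem_range, id]
  have hR : PrimrecRel (fun (w : List ℕ) (p : List (List ℕ) × List (List ℕ)) =>
      (∃ i < w.length, w.getD i (zeroIdx p.1) ≠ zeroIdx p.1) ∧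
      ∀ t < p.1.length ^ D0 p.1.length ((p.2.length - 1) / 2) + 2,
        BdL (D0 p.1.length ((p.2.length - 1) / 2)) (zeroIdx p.1)
          ((stepL (zeroIdx p.1) p.1 p.2)^[t] w)) := PrimrecPred.and hC1 hC2
  exact (hR.exists_mem_list.comp hW Primrec.id).of_eq fun p => Iff.rfl

end Pool.Agent.Q325.SO
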