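import Pool.Agent.Q325.SO.Stmts

set_option autoImplicit false

namespace Pool.Agent.Q325.SO

private theorem pstep_getD {α : Type} [Primcodable α] {l : α → List ℕ} {n d : α → ℕ}
    (hl : Primrec l) (hn : Primrec n) (hd : Primrec d) :
    Primrec fun a => (l a).getD (n a) (d a) := by
  simp only [List.getD_eq_getElem?_getD]
  exact Primrec.option_getD.comp (Primrec.list_getElem?.comp hl hn) hd

private theorem pstep_getDL {α : Type} [Primcodable α] {l : α → List (List ℕ)} {n : α → ℕ}
    (hl : Primrec l) (hn : Primrec n) :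
    Primrec fun a => (l a).getD (n a) [] := by
  simp only [List.getD_eq_getElem?_getD]
  exact Primrec.option_getD.comp (Primrec.list_getElem?.comp hl hn) (Primrec.const [])

private theorem pstep_step : Primrec fun q : (ℕ × (List (List ℕ) × List (List ℕ))) × List ℕ =>
    stepL q.1.1 q.1.2.1 q.1.2.2 q.2 := by
  have hz : Primrec fun q : (ℕ × (List (List ℕ) × List (List ℕ))) × List ℕ => q.1.1 :=
    Primrec.fst.comp Primrec.fst
  have hT : Primrec fun q : (ℕ × (List (List ℕ) × List (List ℕ))) × List ℕ => q.1.2.1 :=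
    Primrec.fst.comp (Primrec.snd.comp Primrec.fst)
  have hH : Primrec fun q : (ℕ × (List (List ℕ) × List (List ℕ))) × List ℕ => q.1.2.2 :=
    Primrec.snd.comp (Primrec.snd.comp Primrec.fst)
  have hw : Primrec fun q : (ℕ × (List (List ℕ) × List (List ℕ))) × List ℕ => q.2 := Primrec.snd
  unfold stepL
  refine Primrec.list_map (Primrec.list_range.comp
    (Primrec.nat_add.comp (Primrec.list_length.comp hw)
      (Primrec.nat_sub.comp (Primrec.list_length.comp hH) (Primrec.const 1)))) ?_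
  -- the function of `i`
  let B := ((ℕ × (List (List ℕ) × List (List ℕ))) × List ℕ) × ℕ
  refine Primrec.list_foldl (α := B) (β := ℕ) (σ := ℕ)
    (f := fun p => List.range p.1.1.2.2.length) (g := fun p => p.1.1.1)
    (h := fun p s => (p.1.1.2.1.getD s.1 []).getD ((p.1.1.2.2.getD s.2 []).getD
        (if p.1.1.2.2.length - 1 ≤ p.2 + s.2 then
          p.1.2.getD (p.2 + s.2 - (p.1.1.2.2.length - 1)) p.1.1.1 else p.1.1.1) p.1.1.1) p.1.1.1)
    (Primrec.list_range.comp (Primrec.list_length.comp (hH.comp Primrec.fst)))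
    (hz.comp Primrec.fst) ?_
  -- the step of the fold
  have kz : Primrec fun r : B × (ℕ × ℕ) => r.1.1.1.1 := hz.comp (Primrec.fst.comp Primrec.fst)
  have kT : Primrec fun r : B × (ℕ × ℕ) => r.1.1.1.2.1 := hT.comp (Primrec.fst.comp Primrec.fst)
  have kH : Primrec fun r : B × (ℕ × ℕ) => r.1.1.1.2.2 := hH.comp (Primrec.fst.comp Primrec.fst)
  have kw : Primrec fun r : B × (ℕ × ℕ) => r.1.1.2 := hw.comp (Primrec.fst.comp Primrec.fst)
  have ki : Primrec fun r : B × (ℕ × ℕ) => r.1.2 := Primrec.snd.comp Primrec.fst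
  have ka : Primrec fun r : B × (ℕ × ℕ) => r.2.1 := Primrec.fst.comp Primrec.snd
  have kj : Primrec fun r : B × (ℕ × ℕ) => r.2.2 := Primrec.snd.comp Primrec.snd
  have kl : Primrec fun r : B × (ℕ × ℕ) => r.1.1.1.2.2.length - 1 :=
    Primrec.nat_sub.comp (Primrec.list_length.comp kH) (Primrec.const 1)
  have kij : Primrec fun r : B × (ℕ × ℕ) => r.1.2 + r.2.2 := Primrec.nat_add.comp ki kj
  have kif : Primrec fun r : B × (ℕ × ℕ) => if r.1.1.1.2.2.length - 1 ≤ r.1.2 + r.2.2 then
      r.1.1.2.getD (r.1.2 + r.2.2 - (r.1.1.1.2.2.length - 1)) r.1.1.1.1 else r.1.1.1.1 :=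
    Primrec.ite (Primrec.nat_le.comp kl kij)
      (pstep_getD kw (Primrec.nat_sub.comp kij kl) kz) kz
  exact (pstep_getD (pstep_getDL kT ka) (pstep_getD (pstep_getDL kH kj) kif kz) kz)

theorem TaskPStep_proof : TaskPStep := by
  unfold TaskPStep
  have h2 : Primrec₂ fun (q : ((ℕ × (List (List ℕ) × List (List ℕ))) × List ℕ) × ℕ)
      (w : List ℕ) => stepL q.1.1.1 q.1.1.2.1 q.1.1.2.2 w := by
    have h1 : Primrec fun r : (((ℕ × (List (List ℕ) × List (List ℕ))) × List ℕ) × ℕ) × List ℕ =>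
        (r.1.1.1, r.2) :=
      Primrec.pair (Primrec.fst.comp (Primrec.fst.comp Primrec.fst)) Primrec.snd
    have h3 := Primrec.comp pstep_step h1
    exact h3
  have h4 : Primrec fun q : ((ℕ × (List (List ℕ) × List (List ℕ))) × List ℕ) × ℕ => q.2 :=
    Primrec.snd
  have h5 : Primrec fun q : ((ℕ × (List (List ℕ) × List (List ℕ))) × List ℕ) × ℕ => q.1.2 :=
    Primrec.snd.comp Primrec.fst
  exact Primrec.nat_iterate h4 h5 h2

end Pool.Agent.Q325.SO
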