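import Pool.Agent.Q325.SO.Stmts

set_option autoImplicit false

namespace Pool.Agent.Q325.SO

theorem TaskPWords_proof : TaskPWords := by
  unfold TaskPWords words
  refine Primrec.nat_iterate Primrec.snd (Primrec.const [[]]) ?_
  refine Primrec.list_flatMap Primrec.snd ?_
  refine Primrec.list_map (Primrec.list_range.comp (Primrec.fst.comp (Primrec.fst.comp Primrec.fst))) ?_
  exact Primrec.list_cons.comp Primrec.snd (Primrec.snd.comp Primrec.fst)

end Pool.Agent.Q325.SO
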