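import Pool.Agent.Q325.SO.Stmts

set_option autoImplicit false

namespace Pool.Agent.Q325.SO

theorem TaskPZero_proof : TaskPZero := by
  unfold TaskPZero
  have hf : Primrec (fun T : List (List ℕ) => List.range T.length) :=
    Primrec.list_range.comp Primrec.list_length
  have h1 : Primrec (fun q : List (List ℕ) × ℕ => q.1.getD q.2 []) :=
    (Primrec.list_getD ([] : List ℕ)).comp Primrec.fst Primrec.snd
  have h2 : Primrec (fun q : List (List ℕ) × ℕ => (q.1.getD q.2 [])[q.2]?) :=
    Primrec.list_getElem?.comp h1 Primrec.snd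
  have h3 : Primrec (fun q : List (List ℕ) × ℕ =>
      ((q.1.getD q.2 [])[q.2]?).getD (q.2 + 1)) :=
    Primrec.option_getD.comp h2 (Primrec.succ.comp Primrec.snd)
  have h4 : Primrec (fun q : List (List ℕ) × ℕ => (q.1.getD q.2 []).getD q.2 (q.2 + 1)) := by
    refine h3.of_eq fun q => ?_
    exact (List.getD_eq_getElem?_getD (l := q.1.getD q.2 [])).symm
  have hp : Primrec₂ (fun (T : List (List ℕ)) (a : ℕ) =>
      (T.getD a []).getD a (a + 1) == a) :=
    Primrec.beq.comp h4 Primrec.snd
  exact Primrec.list_findIdx hf hp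

end Pool.Agent.Q325.SO
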