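import Mathlib
import Pool.Agent.Q325.SO.Stmts

set_option autoImplicit false

namespace Pool.Agent.Q325.SO

private theorem sh_sh' {A : Type} (a b : ℤ) (x : ℤ → A) : sh a (sh b x) = sh (a + b) x := by
  funext i
  simp only [sh]
  congr 1
  ring

private theorem Bd_sh' {A : Type} [AddCommGroup A] {D : ℕ} {x : ℤ → A} (s : ℤ) (hx : Bd D x) :
    Bd D (sh s x) := by
  intro i j hi hj
  have h := hx (i + s) (j + s) hi hj
  linarith

private theorem Bd_mono' {A : Type} [AddCommGroup A] {D D' : ℕ} {x : ℤ → A} (hD : D ≤ D')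
    (hx : Bd D x) : Bd D' x := by
  intro i j hi hj
  have h := hx i j hi hj
  have h' : (D : ℤ) ≤ D' := by exact_mod_cast hD
  linarith

theorem TaskPeriod_proof : TaskPeriod := by
  intro hadd A _ r h k s y B hk hy hB hper
  refine ⟨y, hy, fun t => ?_⟩
  -- the iterates at the multiples of `k`
  have hq : ∀ q : ℕ, (F r h)^[k * q] y = sh (q * s) y := by
    intro q
    induction q with
    | zero =>
      funext i
      simp [sh]
    | succ q ih =>
      rw [Nat.mul_succ, Nat.add_comm, Function.iterate_add_apply, ih,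
        (hadd A r h k).2.2.2.1, hper, sh_sh']
      congr 1
      push_cast
      ring
  have ht : t = t % k + k * (t / k) := (Nat.mod_add_div t k).symm
  have hlt : t % k < k := Nat.mod_lt t hk
  rw [ht, Function.iterate_add_apply, hq, (hadd A r h (t % k)).2.2.2.1]
  refine Bd_sh' _ (Bd_mono' ?_ ((hadd A r h (t % k)).2.2.2.2.1 y B hB))
  have : 2 * r * (t % k) ≤ 2 * r * k := Nat.mul_le_mul_left _ hlt.le
  omega

end Pool.Agent.Q325.SO
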