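import Pool.Agent.Q325.SO.Stmts

/-! `F ^ k - shift` is an abelian cellular automaton of radius `r k` (helper331) -/

set_option autoImplicit false

namespace Pool.Agent.Q325.SO

private theorem pow_aux {A : Type} [AddCommGroup A] (r : ℕ) (h : ℕ → A →+ A) (k : ℕ) :
    ∃ g : ℕ → A →+ A, ∀ x : ℤ → A, F (r * k) g x = (F r h)^[k] x := by
  induction k with
  | zero =>
    refine ⟨fun _ => AddMonoidHom.id A, fun x => ?_⟩
    funext i
    simp [F]
  | succ k ih =>
    obtain ⟨g, hg⟩ := ih
    refine ⟨fun n => ∑ j ∈ Finset.range (2 * r + 1), ∑ l ∈ Finset.range (2 * (r * k) + 1),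
      if j + l = n then (h j).comp (g l) else 0, fun x => ?_⟩
    rw [Function.iterate_succ_apply', ← hg]
    funext i
    simp only [F, map_sum]
    have key : ∀ n : ℕ, (∑ j ∈ Finset.range (2 * r + 1),
        ∑ l ∈ Finset.range (2 * (r * k) + 1),
        if j + l = n then (h j).comp (g l) else 0 : A →+ A)
          (x (i + n - (r * (k + 1) : ℕ))) =
        ∑ j ∈ Finset.range (2 * r + 1), ∑ l ∈ Finset.range (2 * (r * k) + 1),
          if j + l = n then h j (g l (x (i + j - r + l - (r * k : ℕ)))) else 0 := by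
      intro n
      rw [AddMonoidHom.finset_sum_apply]
      refine Finset.sum_congr rfl fun j _ => ?_
      rw [AddMonoidHom.finset_sum_apply]
      refine Finset.sum_congr rfl fun l _ => ?_
      split_ifs with hjl
      · subst hjl
        have : i + ((j + l : ℕ) : ℤ) - ((r * (k + 1) : ℕ) : ℤ)
            = i + j - r + l - ((r * k : ℕ) : ℤ) := by
          push_cast; ring
        rw [this]; rfl
      · rfl
    rw [Finset.sum_congr rfl (fun n _ => key n), Finset.sum_comm]
    refine Finset.sum_congr rfl fun j hj => ?_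
    rw [Finset.sum_comm]
    refine Finset.sum_congr rfl fun l hl => ?_
    rw [Finset.sum_ite_eq, if_pos]
    rw [Finset.mem_range] at hj hl ⊢
    have : r * (k + 1) = r * k + r := by ring
    omega

theorem TaskPow_proof : TaskPow := by
  intro A _ r h k s hs
  obtain ⟨g, hg⟩ := pow_aux r h k
  have h0 := (abs_le.mp hs)
  obtain ⟨n₀, hn₀⟩ : ∃ n₀ : ℕ, (n₀ : ℤ) = (r * k : ℕ) + s :=
    ⟨(((r * k : ℕ) : ℤ) + s).toNat, Int.toNat_of_nonneg (by push_cast; linarith [h0.1])⟩
  have hlt : n₀ ∈ Finset.range (2 * (r * k) + 1) := by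
    rw [Finset.mem_range]
    have h2 := h0.2
    have : (n₀ : ℤ) ≤ 2 * (r * k : ℕ) := by
      rw [hn₀]; push_cast; linarith
    omega
  refine ⟨fun n => g n - if n₀ = n then AddMonoidHom.id A else 0, fun x => ?_⟩
  rw [← hg]
  funext i
  simp only [F, sh, Pi.sub_apply, AddMonoidHom.sub_apply, Finset.sum_sub_distrib]
  congr 1
  have key : ∀ n : ℕ, (if n₀ = n then AddMonoidHom.id A else 0 : A →+ A)
      (x (i + n - (r * k : ℕ))) = if n₀ = n then x (i + s) else 0 := by
    intro n
    split_ifs with hn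
    · subst hn
      have : i + (n₀ : ℤ) - ((r * k : ℕ) : ℤ) = i + s := by rw [hn₀]; ring
      rw [this]; rfl
    · rfl
  rw [Finset.sum_congr rfl (fun n _ => key n), Finset.sum_ite_eq, if_pos hlt]

end Pool.Agent.Q325.SO
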