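import Pool.Agent.Q325.SO.Stmts

set_option autoImplicit false

namespace Pool.Agent.Q325.SO

private theorem iter_lo {A : Type} [AddCommGroup A] (r : ℕ) (h : ℕ → A →+ A) (t : ℕ) :
    ∀ (x : ℤ → A) (a : ℤ), (∀ i < a, x i = 0) → ∀ i < a - r * t, ((F r h)^[t] x) i = 0 := by
  induction t with
  | zero =>
    intro x a hx i hi
    exact hx i (by simpa using hi)
  | succ t ih =>
    intro x a hx i hi
    rw [Function.iterate_succ_apply]
    refine ih (F r h x) (a - r) ?_ i ?_
    · intro i hi
      unfold F
      refine Finset.sum_eq_zero fun j hj => ?_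
      have hj' := Finset.mem_range.mp hj
      rw [hx _ (by omega), map_zero]
    · push_cast at hi ⊢
      linarith [mul_add (r : ℤ) t 1]

private theorem iter_hi {A : Type} [AddCommGroup A] (r : ℕ) (h : ℕ → A →+ A) (t : ℕ) :
    ∀ (x : ℤ → A) (b : ℤ), (∀ i, b < i → x i = 0) → ∀ i, b + r * t < i →
      ((F r h)^[t] x) i = 0 := by
  induction t with
  | zero =>
    intro x a hx i hi
    exact hx i (by simpa using hi)
  | succ t ih =>
    intro x b hx i hi
    rw [Function.iterate_succ_apply]
    refine ih (F r h x) (b + r) ?_ i ?_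
    · intro i hi
      unfold F
      refine Finset.sum_eq_zero fun j hj => ?_
      have hj' := Finset.mem_range.mp hj
      rw [hx _ (by omega), map_zero]
    · push_cast at hi ⊢
      linarith [mul_add (r : ℤ) t 1]

theorem TaskSpeed_proof : TaskSpeed := by
  intro _ A _ r h k s y hy hf he
  have hne : hf.toFinset.Nonempty := by
    obtain ⟨i, hi⟩ := Function.ne_iff.mp hy
    exact ⟨i, by simpa using hi⟩
  obtain ⟨a, ha, hamin⟩ : ∃ a, y a ≠ 0 ∧ ∀ i < a, y i = 0 := by
    refine ⟨hf.toFinset.min' hne, ?_, ?_⟩
    · have := hf.toFinset.min'_mem hne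
      simpa using this
    · intro i hi
      by_contra h0
      have := hf.toFinset.min'_le i (by simpa using h0)
      omega
  obtain ⟨b, hb, hbmax⟩ : ∃ b, y b ≠ 0 ∧ ∀ i, b < i → y i = 0 := by
    refine ⟨hf.toFinset.max' hne, ?_, ?_⟩
    · have := hf.toFinset.max'_mem hne
      simpa using this
    · intro i hi
      by_contra h0
      have := hf.toFinset.le_max' i (by simpa using h0)
      omega
  have h1 : s ≤ r * k := by
    by_contra hc
    have h2 := iter_lo r h k y a hamin (a - s) (by push Not at hc; linarith)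
    rw [he] at h2
    unfold sh at h2
    rw [sub_add_cancel] at h2
    exact ha h2
  have h3 : -s ≤ r * k := by
    by_contra hc
    have h2 := iter_hi r h k y b hbmax (b - s) (by push Not at hc; linarith)
    rw [he] at h2
    unfold sh at h2
    rw [sub_add_cancel] at h2
    exact hb h2
  exact abs_le.mpr ⟨by linarith, h1⟩

end Pool.Agent.Q325.SO
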