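import Mathlib
import Pool.Agent.Q325.SO.Stmts

set_option autoImplicit false

namespace Pool.Agent.Q325.SO

private theorem st_el_e {A : Type} [AddCommGroup A] {m : ℕ} (e : A ≃ Fin m) (x : A) :
    el e (e x : ℕ) = x := by
  unfold el
  rw [dif_pos (e x).2]
  simp

private theorem st_table {A : Type} [AddCommGroup A] {m : ℕ} (e : A ≃ Fin m) (a b z : ℕ)
    (ha : a < m) (hb : b < m) :
    ((table e).getD a []).getD b z = (e (el e a + el e b) : ℕ) := by
  unfold table el
  have h1 : (List.ofFn fun a : Fin m => List.ofFn fun b : Fin m =>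
      (e (e.symm a + e.symm b) : ℕ)).getD a [] =
      List.ofFn fun b : Fin m => (e (e.symm ⟨a, ha⟩ + e.symm b) : ℕ) := by
    rw [List.getD_eq_getElem _ _ (by simpa using ha), List.getElem_ofFn]
  rw [dif_pos ha, dif_pos hb, h1]
  rw [List.getD_eq_getElem _ _ (by simpa using hb), List.getElem_ofFn]

private theorem st_rules {A : Type} [AddCommGroup A] {m : ℕ} (e : A ≃ Fin m) (r : ℕ)
    (h : ℕ → A →+ A) (j c z : ℕ) (hj : j < 2 * r + 1) (hc : c < m) :
    ((rules e r h).getD j []).getD c z = (e (h j (el e c)) : ℕ) := by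
  unfold rules el
  have h1 : ((List.range (2 * r + 1)).map fun j => List.ofFn fun a : Fin m =>
      (e (h j (e.symm a)) : ℕ)).getD j [] =
      List.ofFn fun a : Fin m => (e (h j (e.symm a)) : ℕ) := by
    rw [List.getD_eq_getElem _ _ (by simpa using hj), List.getElem_map, List.getElem_range]
  rw [dif_pos hc, h1]
  rw [List.getD_eq_getElem _ _ (by simpa using hc), List.getElem_ofFn]

private theorem st_fold {A : Type} [AddCommGroup A] {m : ℕ} (e : A ≃ Fin m) (G : ℕ → ℕ)
    (g : ℕ → A) (n : ℕ) (hG : ∀ j < n, G j = (e (g j) : ℕ)) :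
    (List.range n).foldl (fun acc j => ((table e).getD acc []).getD (G j) (e 0 : ℕ)) (e 0 : ℕ)
      = (e (∑ j ∈ Finset.range n, g j) : ℕ) := by
  induction n with
  | zero => simp
  | succ n ih =>
    rw [List.range_succ, List.foldl_append, ih (fun j hj => hG j (by omega))]
    simp only [List.foldl_cons, List.foldl_nil]
    rw [hG n (by omega), st_table e _ _ _ (e _).2 (e _).2, st_el_e, st_el_e,
      Finset.sum_range_succ]

private theorem st_getD_lt {m : ℕ} (w : List ℕ) (hw : ∀ a ∈ w, a < m) (z : ℕ) (hz : z < m)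
    (k : ℕ) : w.getD k z < m := by
  by_cases hk : k < w.length
  · rw [List.getD_eq_getElem _ _ hk]
    exact hw _ (List.getElem_mem hk)
  · rw [List.getD_eq_default _ _ (by omega)]
    exact hz

/-- the value of the automaton in the cell with the number `i` -/
private def st_val {A : Type} [AddCommGroup A] {m : ℕ} (e : A ≃ Fin m) (r : ℕ)
    (h : ℕ → A →+ A) (w : List ℕ) (i : ℕ) : A :=
  ∑ j ∈ Finset.range (2 * r + 1), h j (el e (if 2 * r ≤ i + j then w.getD (i + j - 2 * r) (e 0 : ℕ)
    else (e 0 : ℕ)))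

private theorem st_len {A : Type} [AddCommGroup A] {m : ℕ} (e : A ≃ Fin m) (r : ℕ)
    (h : ℕ → A →+ A) : (rules e r h).length = 2 * r + 1 := by
  simp [rules]

private theorem st_step {A : Type} [AddCommGroup A] {m : ℕ} (e : A ≃ Fin m) (r : ℕ)
    (h : ℕ → A →+ A) (w : List ℕ) (hw : ∀ a ∈ w, a < m) :
    stepL (e 0 : ℕ) (table e) (rules e r h) w =
      (List.range (w.length + 2 * r)).map fun i => (e (st_val e r h w i) : ℕ) := by
  unfold stepL
  rw [st_len, Nat.add_sub_cancel]
  refine List.map_congr_left fun i _ => ?_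
  unfold st_val
  exact st_fold e _ _ _ (fun j hj => by
    apply st_rules e r h j _ _ hj
    split_ifs
    · exact st_getD_lt w hw _ (e 0).2 _
    · exact (e 0).2)

private theorem st_val_big {A : Type} [AddCommGroup A] {m : ℕ} (e : A ≃ Fin m) (r : ℕ)
    (h : ℕ → A →+ A) (w : List ℕ) (i : ℕ) (hi : w.length + 2 * r ≤ i) :
    st_val e r h w i = 0 := by
  unfold st_val
  apply Finset.sum_eq_zero
  intro j _
  rw [if_pos (by omega), List.getD_eq_default _ _ (by omega), st_el_e, map_zero]

private theorem st_getD {A : Type} [AddCommGroup A] {m : ℕ} (e : A ≃ Fin m) (r : ℕ)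
    (h : ℕ → A →+ A) (w : List ℕ) (hw : ∀ a ∈ w, a < m) (i : ℕ) :
    (stepL (e 0 : ℕ) (table e) (rules e r h) w).getD i (e 0 : ℕ) = (e (st_val e r h w i) : ℕ) := by
  rw [st_step e r h w hw]
  by_cases hi : i < w.length + 2 * r
  · rw [List.getD_eq_getElem _ _ (by simpa using hi), List.getElem_map, List.getElem_range]
  · rw [List.getD_eq_default _ _ (by simpa using (not_lt.mp hi)), st_val_big e r h w i (by omega)]

theorem TaskStep_proof : TaskStep := by
  intro A _ m e r h off w hw
  refine ⟨?_, ?_⟩
  · funext i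
    unfold F cf
    by_cases hi : off - r ≤ i
    · rw [if_pos hi, st_getD e r h w hw, st_el_e]
      obtain ⟨n, hn⟩ := Int.eq_ofNat_of_zero_le (sub_nonneg.mpr hi)
      have hi' : i = off - r + n := by omega
      rw [hn, Int.toNat_natCast]
      unfold st_val
      apply Finset.sum_congr rfl
      intro j hj
      congr 1
      by_cases hj2 : 2 * r ≤ n + j
      · rw [if_pos (show off ≤ i + j - r by omega), if_pos hj2]
        congr 2
        omega
      · rw [if_neg (show ¬ off ≤ i + j - r by omega), if_neg hj2, st_el_e]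
    · rw [if_neg hi]
      apply Finset.sum_eq_zero
      intro j hj
      rw [Finset.mem_range] at hj
      rw [if_neg (show ¬ off ≤ i + j - r by omega), map_zero]
  · intro a ha
    rw [st_step e r h w hw, List.mem_map] at ha
    obtain ⟨i, _, rfl⟩ := ha
    exact (e _).2

end Pool.Agent.Q325.SO
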