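import Pool.Agent.Q325.SO.Stmts

set_option autoImplicit false

namespace Pool.Agent.Q325.SO

private lemma cf_shift_aux {A : Type} [AddCommGroup A] {m : ℕ} (e : A ≃ Fin m) (s1 s2 : ℤ)
    (w : List ℕ) : cf e s2 w = sh (s1 - s2) (cf e s1 w) := by
  funext i
  have h2 : i + (s1 - s2) - s1 = i - s2 := by ring
  by_cases h : s2 ≤ i
  · have h1 : s1 ≤ i + (s1 - s2) := by omega
    simp only [cf, sh, if_pos h, if_pos h1, h2]
  · have h1 : ¬ s1 ≤ i + (s1 - s2) := by omega
    simp only [cf, sh, if_neg h, if_neg h1]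

private lemma bd_sh_aux {A : Type} [AddCommGroup A] (D : ℕ) (d : ℤ) (x : ℤ → A) (hx : Bd D x) :
    Bd D (sh d x) := by
  intro i j hi hj
  have := hx (i + d) (j + d) hi hj
  omega

theorem TaskTime_proof : TaskTime := by
  intro hadd hword A _ m e r h D x hx hB t
  by_cases hz : ∃ t₀ < m ^ D + 1, (F r h)^[t₀] x = 0
  · obtain ⟨t₀, ht₀, hz⟩ := hz
    by_cases ht : t < t₀
    · exact hB t (by omega)
    · obtain ⟨n, rfl⟩ := Nat.exists_eq_add_of_le (not_lt.mp ht)
      rw [add_comm, Function.iterate_add_apply, hz, (hadd A r h n).2.2.1]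
      intro i j hi
      exact absurd rfl hi
  · have hne : ∀ t < m ^ D + 1, (F r h)^[t] x ≠ 0 := fun t ht h0 => hz ⟨t, ht, h0⟩
    have hw : ∀ t : Fin (m ^ D + 1), ∃ (s : ℤ) (w : List ℕ), w.length = D ∧ (∀ a ∈ w, a < m) ∧
        (F r h)^[t.1] x = cf e s w := by
      intro t
      obtain ⟨s, w, h1, h2, h3, -⟩ := hword A m e D _ (hne t.1 t.2) (hB t.1 (by omega))
      exact ⟨s, w, h1, h2, h3⟩
    choose s w hlen hlt heq using hw
    let f : Fin (m ^ D + 1) → (Fin D → Fin m) := fun t i =>
      ⟨(w t)[i.1]'(by rw [hlen]; exact i.2), hlt t _ (List.getElem_mem _)⟩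
    obtain ⟨a, b, hab, hf⟩ := Fintype.exists_ne_map_eq_of_card_lt f (by simp)
    have hwab : w a = w b := by
      apply List.ext_getElem
      · rw [hlen, hlen]
      · intro i h1 h2
        have := congrFun hf ⟨i, by rw [hlen] at h1; exact h1⟩
        simpa [f] using this
    -- the two times
    have key : ∀ t₁ t₂ : Fin (m ^ D + 1), t₁.1 < t₂.1 → w t₁ = w t₂ →
        ∀ t, Bd D ((F r h)^[t] x) := by
      intro t₁ t₂ h12 hw12
      have hper : (F r h)^[t₂.1] x = sh (s t₁ - s t₂) ((F r h)^[t₁.1] x) := by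
        rw [heq t₂, heq t₁, ← hw12]
        exact cf_shift_aux e _ _ _
      intro t
      induction t using Nat.strong_induction_on with
      | _ t ih =>
        by_cases ht : t < t₂.1
        · exact hB t (by omega)
        · obtain ⟨n, rfl⟩ := Nat.exists_eq_add_of_le (not_lt.mp ht)
          rw [add_comm, Function.iterate_add_apply, hper, (hadd A r h n).2.2.2.1,
            ← Function.iterate_add_apply]
          exact bd_sh_aux _ _ _ (ih (n + t₁.1) (by omega))
    rcases lt_or_gt_of_ne (fun h => hab (Fin.ext h) : a.1 ≠ b.1) with h | h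
    · exact key a b h hwab t
    · exact key b a h hwab.symm t

end Pool.Agent.Q325.SO
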