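import Pool.Agent.Q325.SO.Stmts

set_option autoImplicit false

namespace Pool.Agent.Q325.SO

theorem TaskWord_proof : TaskWord := by
  intro A _ m e D x hx hB
  have h1 : ∃ z : ℤ, x z ≠ 0 := by
    by_contra h
    push Not at h
    exact hx (funext h)
  obtain ⟨i0, hi0⟩ := h1
  obtain ⟨s, hs, hmin⟩ := Int.exists_least_of_bdd (P := fun z => x z ≠ 0)
    ⟨i0 - D, fun z hz => by have := hB z i0 hz hi0; omega⟩ ⟨i0, hi0⟩
  have hD : 0 < D := by
    have := hB s s hs hs
    omega
  have hlen : (List.ofFn (fun k : Fin D => (e (x (s + (k : ℕ))) : ℕ))).length = D := List.length_ofFn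
  have hget : ∀ k : ℕ, k < D →
      (List.ofFn (fun k : Fin D => (e (x (s + (k : ℕ))) : ℕ))).getD k (e 0 : ℕ) =
        (e (x (s + k)) : ℕ) := by
    intro k hk
    rw [List.getD_eq_getElem _ _ (by rw [hlen]; exact hk), List.getElem_ofFn]
  refine ⟨s, List.ofFn (fun k : Fin D => (e (x (s + (k : ℕ))) : ℕ)), hlen, ?_, ?_, 0, ?_, ?_⟩
  · intro a ha
    rw [List.mem_ofFn] at ha
    obtain ⟨k, rfl⟩ := ha
    exact (e _).2
  · funext i
    unfold cf
    split_ifs with h
    · by_cases hk : (i - s).toNat < D
      · rw [hget _ hk]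
        have h2 : s + ((i - s).toNat : ℤ) = i := by omega
        rw [h2]
        unfold el
        rw [dif_pos (e (x i)).2]
        simp
      · rw [List.getD_eq_default _ _ (by rw [hlen]; omega)]
        have h3 : x i = 0 := by
          by_contra h4
          have := hB s i hs h4
          omega
        rw [h3]
        unfold el
        rw [dif_pos (e (0 : A)).2]
        simp
    · by_contra h4
      exact h (hmin i h4)
  · rw [hlen]; exact hD
  · rw [hget 0 hD]
    intro h
    apply hs
    have h5 : e (x s) = e 0 := by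
      apply Fin.ext
      simpa using h
    exact e.injective h5

end Pool.Agent.Q325.SO
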