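import Pool.Agent.Q325.SO.Stmts

set_option autoImplicit false

namespace Pool.Agent.Q325.SO

theorem TaskWordNe_proof : TaskWordNe := by
  intro A _ m e s w hw hex h0
  obtain ⟨i, hi, hne⟩ := hex
  apply hne
  have h1 := congrFun h0 (s + i)
  unfold cf at h1
  have h2 : s ≤ s + (i : ℤ) := by omega
  rw [if_pos h2] at h1
  have h3 : (s + (i : ℤ) - s).toNat = i := by omega
  rw [h3] at h1
  have h4 : w.getD i (e 0 : ℕ) < m := by
    rw [List.getD_eq_getElem _ _ hi]
    exact hw _ (List.getElem_mem hi)
  unfold el at h1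
  rw [dif_pos h4] at h1
  have h5 := congrArg e h1
  rw [Equiv.apply_symm_apply] at h5
  exact congrArg Fin.val h5

end Pool.Agent.Q325.SO
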