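import Pool.Agent.Q325.SO.Stmts

set_option autoImplicit false

namespace Pool.Agent.Q325.SO

theorem TaskWords_proof : TaskWords := by
  intro m D
  induction D with
  | zero =>
    intro w
    simp only [words, Function.iterate_zero, id_eq, List.mem_singleton]
    constructor
    · rintro rfl
      simp
    · rintro ⟨h, -⟩
      exact List.length_eq_zero_iff.1 h
  | succ D ih =>
    intro w
    have h1 : words m (D + 1) =
        (words m D).flatMap fun w => (List.range m).map fun a => a :: w := by
      unfold words
      rw [Function.iterate_succ_apply']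
    rw [h1, List.mem_flatMap]
    constructor
    · rintro ⟨v, hv, hw⟩
      obtain ⟨a, ha, rfl⟩ := List.mem_map.1 hw
      obtain ⟨h2, h3⟩ := (ih v).1 hv
      refine ⟨by simp [h2], ?_⟩
      intro b hb
      rcases List.mem_cons.1 hb with rfl | hb
      · exact List.mem_range.1 ha
      · exact h3 b hb
    · rintro ⟨h2, h3⟩
      cases w with
      | nil => simp at h2
      | cons a v =>
        refine ⟨v, (ih v).2 ⟨by simpa using h2, fun b hb => h3 b (List.mem_cons_of_mem _ hb)⟩, ?_⟩
        exact List.mem_map.2 ⟨a, List.mem_range.2 (h3 a List.mem_cons_self), rfl⟩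

end Pool.Agent.Q325.SO
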