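import Pool.Agent.Q325.SO.Stmts

set_option autoImplicit false

namespace Pool.Agent.Q325.SO

private theorem table_length {A : Type} [AddCommGroup A] {m : ℕ} (e : A ≃ Fin m) :
    (table e).length = m := by
  simp [table]

private theorem table_diag {A : Type} [AddCommGroup A] {m : ℕ} (e : A ≃ Fin m) (a : ℕ)
    (ha : a < m) :
    (((table e).getD a []).getD a (a + 1)) = (e (e.symm ⟨a, ha⟩ + e.symm ⟨a, ha⟩) : ℕ) := by
  simp [table, List.getD_eq_getElem?_getD, ha]

theorem TaskZero_proof : TaskZero := by
  intro A _ m e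
  have key : ∀ a : ℕ, ∀ ha : a < m,
      ((((table e).getD a []).getD a (a + 1) == a) = true ↔ a = (e 0 : ℕ)) := by
    intro a ha
    rw [table_diag e a ha, beq_iff_eq]
    constructor
    · intro h
      have h1 : e (e.symm ⟨a, ha⟩ + e.symm ⟨a, ha⟩) = (⟨a, ha⟩ : Fin m) := Fin.ext h
      have h2 : e.symm ⟨a, ha⟩ + e.symm ⟨a, ha⟩ = e.symm ⟨a, ha⟩ := by
        have := congrArg e.symm h1
        rwa [Equiv.symm_apply_apply] at this
      have h3 : e.symm ⟨a, ha⟩ = 0 := by simpa using h2
      rw [← h3, Equiv.apply_symm_apply]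
    · intro h
      have h1 : (⟨a, ha⟩ : Fin m) = e 0 := Fin.ext h
      have h3 : e.symm ⟨a, ha⟩ = 0 := by rw [h1, Equiv.symm_apply_apply]
      rw [h3, add_zero, ← h]
  unfold zeroIdx
  have hlt : (e 0 : ℕ) < (List.range (table e).length).length := by
    rw [List.length_range, table_length]; exact (e 0).2
  rw [List.findIdx_eq hlt]
  constructor
  · rw [List.getElem_range]
    exact (key _ (e 0).2).2 rfl
  · intro j hj
    rw [List.getElem_range]
    by_contra hne
    have hjm : j < m := lt_trans hj (e 0).2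
    have := (key j hjm).1 (by simpa using hne)
    omega

end Pool.Agent.Q325.SO
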