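import Pool.Agent.Q325.SO.Stmts

set_option autoImplicit false

namespace Pool.Agent.Q325.SO

theorem TaskTor_alt : TaskTor := by
  intro hAdd A _ m e r h k s y hy hfs hF
  have hm : 0 < m := by
    have := (e 0).2
    omega
  haveI : Fintype A := Fintype.ofEquiv _ e.symm
  have hcard : Fintype.card A = m := by
    rw [Fintype.card_congr e, Fintype.card_fin]
  have hmy : m • y = 0 := by
    funext i
    have := card_nsmul_eq_zero (x := y i)
    rw [hcard] at this
    exact this
  set d := addOrderOf y with hd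
  have hdm : d ∣ m := addOrderOf_dvd_of_nsmul_eq_zero hmy
  have hd0 : 0 < d := Nat.pos_of_dvd_of_pos hdm hm
  have hd1 : d ≠ 1 := by
    intro h1
    exact hy (AddMonoid.addOrderOf_eq_one_iff.1 h1)
  have hp := Nat.minFac_prime hd1
  obtain ⟨c, hc⟩ := Nat.minFac_dvd d
  have hc0 : 0 < c := by
    rcases Nat.eq_zero_or_pos c with h0 | h0
    · rw [h0, mul_zero] at hc
      omega
    · exact h0
  have hcd : c < d := by
    have h2 := hp.two_le
    calc c < 2 * c := by omega
      _ ≤ d.minFac * c := Nat.mul_le_mul_right c h2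
      _ = d := hc.symm
  refine ⟨d.minFac, c • y, hp, (Nat.minFac_le hd0).trans (Nat.le_of_dvd hm hdm), ?_, ?_, ?_, ?_⟩
  · intro h0
    exact absurd (Nat.le_of_dvd hc0 (addOrderOf_dvd_of_nsmul_eq_zero h0)) (by omega)
  · refine Set.Finite.subset hfs fun i hi => ?_
    intro h0
    apply hi
    change c • y i = 0
    rw [h0, smul_zero]
  · rw [← mul_nsmul', ← hc, hd]
    exact addOrderOf_nsmul_eq_zero y
  · have key : ∀ c : ℕ, (F r h)^[k] (c • y) = c • (F r h)^[k] y := by
      intro c
      induction c with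
      | zero => rw [zero_nsmul, zero_nsmul]; exact (hAdd A r h k).2.2.1
      | succ c ih => rw [succ_nsmul, succ_nsmul, (hAdd A r h k).1, ih]
    rw [key, hF]
    rfl

end Pool.Agent.Q325.SO
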